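import Mathlib

/-!
# Automorphisms of the field of algebraic numbers: roots of unity and square roots of primes
-/

set_option autoImplicit false
set_option linter.unusedSectionVars false

namespace Pool.Agent.K3h48.TC

open Polynomial

/-- the field of algebraic numbers -/
abbrev W := AlgebraicClosure ℚ

lemma algW : Algebra.IsAlgebraic ℚ W := by
  have h := AlgebraicClosure.isAlgebraic ℚ
  refine ⟨fun x => ?_⟩
  obtain ⟨f, hf, hx⟩ := h.1 x
  refine ⟨f, hf, ?_⟩
  rw [← hx, aeval_def, aeval_def]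
  congr 1

lemma normalW : Normal ℚ W := by
  have hA : Algebra.IsAlgebraic ℚ W := algW
  have : IsAlgClosure ℚ W := ⟨inferInstance, hA⟩
  exact IsAlgClosure.normal ℚ W

lemma galoisW : IsGalois ℚ W := by
  have := algW
  have := normalW
  exact ⟨⟩

/-- there is an automorphism which raises a root of unity to a prescribed power -/
lemma exists_power {N : ℕ} (hN : 0 < N) {ζ : W} (hζ : IsPrimitiveRoot ζ N) {c : ℕ}
    (hc : c.Coprime N) : ∃ σ : W ≃ₐ[ℚ] W, σ ζ = ζ ^ c := by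
  have h1 : IsPrimitiveRoot (ζ ^ c) N := hζ.pow_of_coprime c hc
  have h2 : minpoly ℚ ζ = minpoly ℚ (ζ ^ c) := by
    rw [← cyclotomic_eq_minpoly_rat hζ hN, ← cyclotomic_eq_minpoly_rat h1 hN]
  have h3 : IsConjRoot ℚ ζ (ζ ^ c) := h2
  have := normalW
  obtain ⟨σ, hσ⟩ := isConjRoot_iff_exists_algEquiv.1 h3.symm
  exact ⟨σ, hσ⟩

/-- the action on the square root of a prime `q` congruent to `1` modulo `4` -/
lemma sqrt_action {q : ℕ} [hq : Fact q.Prime] (hq4 : q % 4 = 1) {ξ : W} (hξ : IsPrimitiveRoot ξ q)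
    {s : W} (hs : s ^ 2 = q) (σ : W ≃ₐ[ℚ] W) {c : ℕ} (hc : ¬ q ∣ c) (hσ : σ ξ = ξ ^ c) :
    σ s = ((legendreSym q c : ℤ) : W) * s := by
  have hne : NeZero q := ⟨hq.out.ne_zero⟩
  have hq2 : q ≠ 2 := by omega
  have hc0 : (c : ZMod q) ≠ 0 := fun h => hc ((ZMod.natCast_eq_zero_iff c q).1 h)
  set χ : MulChar (ZMod q) W := (quadraticChar (ZMod q)).ringHomComp (Int.castRingHom W) with hχ
  set ψ : AddChar (ZMod q) W := AddChar.zmodChar q ((IsPrimitiveRoot.iff_def ξ q).mp hξ).left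
    with hψ
  have hinj : Function.Injective (Int.castRingHom W) := Int.cast_injective
  have hχq : χ.IsQuadratic := (quadraticChar_isQuadratic (ZMod q)).comp _
  have hring : ringChar (ZMod q) ≠ 2 := by rwa [ZMod.ringChar_zmod_n]
  have hχ1 : χ ≠ 1 := by
    intro h
    exact quadraticChar_ne_one hring ((MulChar.ringHomComp_eq_one_iff hinj).1 h)
  have hsq := gaussSum_sq hχ1 hχq
    (AddChar.zmodChar_primitive_of_primitive_root q hξ)
  have hm1 : χ (-1) = 1 := by
    rw [hχ, MulChar.ringHomComp_apply, quadraticChar_neg_one hring, ZMod.card, ZMod.χ₄_nat_one_mod_four hq4]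
    simp
  rw [hm1, one_mul, ZMod.card] at hsq
  set G := gaussSum χ ψ with hG
  have hs' : s ^ 2 = G ^ 2 := by rw [hs]; exact hsq.symm
  have hχc : χ (c : ZMod q) = ((legendreSym q c : ℤ) : W) := by
    rw [hχ, MulChar.ringHomComp_apply, legendreSym, Int.cast_natCast]
    rfl
  have hσG : σ G = χ (c : ZMod q) * G := by
    have h1 : σ G = gaussSum χ (ψ.mulShift (c : ZMod q)) := by
      rw [hG, gaussSum, gaussSum, map_sum]
      refine Finset.sum_congr rfl fun a _ => ?_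
      rw [map_mul, AddChar.mulShift_apply]
      congr 1
      · rw [hχ, MulChar.ringHomComp_apply, eq_intCast, map_intCast]
      · rw [hψ, AddChar.zmodChar_apply, map_pow, hσ, ← pow_mul]
        have h2 : (c : ZMod q) * a = ((c * a.val : ℕ) : ZMod q) := by
          rw [Nat.cast_mul, ZMod.natCast_zmod_val]
        rw [h2, AddChar.zmodChar_apply']
    have h3 := gaussSum_mulShift χ ψ (Units.mk0 (c : ZMod q) hc0)
    rw [Units.val_mk0, ← h1] at h3
    have h4 : χ (c : ZMod q) * χ (c : ZMod q) = 1 := by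
      rw [hχc, ← Int.cast_mul, ← sq, legendreSym.sq_one q (by rwa [Int.cast_natCast])]
      rw [Int.cast_one]
    calc σ G = (χ (c : ZMod q) * χ (c : ZMod q)) * σ G := by rw [h4, one_mul]
      _ = χ (c : ZMod q) * G := by rw [mul_assoc, h3]
  rcases sq_eq_sq_iff_eq_or_eq_neg.1 hs' with h | h
  · rw [h, hσG, hχc]
  · rw [h, map_neg, hσG, hχc]
    ring

/-- **There is an automorphism which fixes the roots of unity of order `n` and the square root of
`p` and moves the square root of `q`.** -/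
theorem exists_sqrt_move {n p q : ℕ} (hn : 0 < n) (hp : p.Prime) (hq : q.Prime)
    (hp4 : p % 4 = 1) (hq4 : q % 4 = 1) (hpq : p ≠ q) (hqn : ¬ q ∣ n)
    {s t : W} (hs : s ^ 2 = p) (ht : t ^ 2 = q) :
    ∃ σ : W ≃ₐ[ℚ] W, (∀ x : W, x ^ n = 1 → σ x = x) ∧ σ s = s ∧ σ t = -t := by
  have hpF : Fact p.Prime := ⟨hp⟩
  have hqF : Fact q.Prime := ⟨hq⟩
  have hq2 : q ≠ 2 := by omega
  have hNpos : 0 < n * p * q := Nat.mul_pos (Nat.mul_pos hn hp.pos) hq.pos
  have hNe : NeZero ((n * p * q : ℕ) : W) := ⟨Nat.cast_ne_zero.2 hNpos.ne'⟩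
  obtain ⟨ζ, hζ⟩ := HasEnoughRootsOfUnity.exists_primitiveRoot W (n * p * q)
  -- a quadratic nonresidue
  have hring : ringChar (ZMod q) ≠ 2 := by rwa [ZMod.ringChar_zmod_n]
  obtain ⟨g, hg⟩ := quadraticChar_exists_neg_one (F := ZMod q) hring
  have hcop : (n * p).Coprime q := by
    rw [Nat.coprime_comm, hq.coprime_iff_not_dvd]
    intro h
    rcases (Nat.Prime.dvd_mul hq).1 h with h1 | h1
    · exact hqn h1
    · exact hpq ((Nat.prime_dvd_prime_iff_eq hq hp).1 h1).symm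
  obtain ⟨c, hc1, hc2⟩ := Nat.chineseRemainder hcop 1 g.val
  have hg0 : g ≠ 0 := by
    rintro rfl
    rw [MulChar.map_zero] at hg
    exact absurd hg (by norm_num)
  have hcg : (c : ZMod q) = g := by
    have h1 := (ZMod.natCast_eq_natCast_iff _ _ _).2 hc2
    rw [h1, ZMod.natCast_zmod_val]
  have hcq : ¬ q ∣ c := fun h => hg0 (by rw [← hcg]; exact (ZMod.natCast_eq_zero_iff c q).2 h)
  have hcnp : c.Coprime (n * p) := by
    have h1 : Nat.gcd c (n * p) = Nat.gcd 1 (n * p) := Nat.ModEq.gcd_eq hc1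
    rw [Nat.gcd_one_left] at h1
    exact h1
  have hcN : c.Coprime (n * p * q) := hcnp.mul_right ((hq.coprime_iff_not_dvd.2 hcq).symm)
  obtain ⟨σ, hσ⟩ := exists_power hNpos hζ hcN
  have hpow : ∀ k : ℕ, σ (ζ ^ k) = (ζ ^ k) ^ c := by
    intro k
    rw [map_pow, hσ, ← pow_mul, ← pow_mul, mul_comm]
  have hfix : ∀ x : W, x ^ (n * p) = 1 → σ x = x := by
    intro x hx
    have hprim : IsPrimitiveRoot (ζ ^ q) (n * p) :=
      hζ.pow hNpos (mul_comm _ _)
    have : NeZero (n * p) := ⟨(Nat.mul_pos hn hp.pos).ne'⟩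
    obtain ⟨i, -, hi⟩ := hprim.eq_pow_of_pow_eq_one hx
    rw [← hi, map_pow, hpow]
    have h1 : ((ζ ^ q) ^ c) = (ζ ^ q) := by
      have h2 : c % (n * p) = 1 % (n * p) := hc1
      rw [pow_eq_pow_mod c hprim.pow_eq_one, h2, ← pow_eq_pow_mod 1 hprim.pow_eq_one, pow_one]
    rw [h1]
  refine ⟨σ, fun x hx => hfix x (by rw [pow_mul, hx, one_pow]), ?_, ?_⟩
  · have hprim : IsPrimitiveRoot (ζ ^ (n * q)) p := hζ.pow hNpos (by ring)
    have hσp : σ (ζ ^ (n * q)) = (ζ ^ (n * q)) ^ 1 := by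
      rw [pow_one]
      exact hfix _ (by rw [mul_comm n p, pow_mul, hprim.pow_eq_one, one_pow])
    have h1 := sqrt_action hp4 hprim hs σ (c := 1) (fun h => hp.one_lt.ne' (Nat.dvd_one.1 h)) hσp
    rw [h1, Nat.cast_one, legendreSym.at_one, Int.cast_one, one_mul]
  · have hprim : IsPrimitiveRoot (ζ ^ (n * p)) q := hζ.pow hNpos rfl
    have h1 := sqrt_action hq4 hprim ht σ (c := c) hcq (hpow _)
    have h2 : legendreSym q c = -1 := by
      rw [legendreSym, Int.cast_natCast, hcg, hg]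
    rw [h1, h2, Int.cast_neg, Int.cast_one, neg_one_mul]

end Pool.Agent.K3h48.TC
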