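import Pool.Agent.K3h48.TC.Aut
import Pool.Agent.R925.FD.Ex

/-!
# An example for every exponent at least three
-/

set_option autoImplicit false
set_option linter.unusedSectionVars false

namespace Pool.Agent.K3h48.TC

open Polynomial Pool.Agent.R925.FD

/-- a complex conjugation of the field of algebraic numbers, and a real `n`-th root of `2` -/
lemma exists_conj {n : ℕ} (hn : 0 < n) : ∃ (c : W ≃ₐ[ℚ] W) (ρ : W), ρ ^ n = 2 ∧ c ρ = ρ ∧
    ∀ (k : ℕ) (x : W), 0 < k → x ^ k = 1 → c x * x = 1 := by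
  have hA : Algebra.IsAlgebraic ℚ W := algW
  have hN : Normal ℚ W := normalW
  let ι : W →ₐ[ℚ] ℂ := IsAlgClosed.lift
  let _ : Algebra W ℂ := ι.toRingHom.toAlgebra
  have : IsScalarTower ℚ W ℂ := IsScalarTower.of_algebraMap_eq fun x => (ι.commutes x).symm
  let cc : ℂ ≃ₐ[ℚ] ℂ := Complex.conjAe.restrictScalars ℚ
  let c : W ≃ₐ[ℚ] W := cc.restrictNormal W
  have hc : ∀ x : W, ι (c x) = (starRingEnd ℂ) (ι x) := fun x => cc.restrictNormal_commutes W x
  -- the real root of `2`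
  obtain ⟨r, hr0, hr⟩ : ∃ r : ℝ, 0 ≤ r ∧ r ^ n = 2 := by
    refine ⟨(2 : ℝ) ^ ((n : ℝ)⁻¹), Real.rpow_nonneg (by norm_num) _, ?_⟩
    exact Real.rpow_inv_natCast_pow (by norm_num) hn.ne'
  have hex : ∃ ρ : W, ι ρ = (r : ℂ) := by
    have h1 : IsIntegral ℚ (r : ℂ) := by
      refine ⟨X ^ n - C 2, monic_X_pow_sub_C 2 hn.ne', ?_⟩
      rw [eval₂_sub, eval₂_X_pow, eval₂_C, ← Complex.ofReal_pow, hr]
      simp
    have h2 : (r : ℂ) ∈ (ι.fieldRange : IntermediateField ℚ ℂ) := by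
      have h3 : ((minpoly ℚ (r : ℂ)).map (algebraMap ℚ W)).Splits := IsAlgClosed.splits _
      have h4 : (minpoly ℚ (r : ℂ)).map (algebraMap ℚ ℂ) =
          ((minpoly ℚ (r : ℂ)).map (algebraMap ℚ W)).map (ι : W →+* ℂ) := by
        rw [Polynomial.map_map]
        congr 1
        ext
        simp
      have h5 : (r : ℂ) ∈ ((minpoly ℚ (r : ℂ)).map (algebraMap ℚ ℂ)).roots := by
        rw [mem_roots ((monic_map_iff.2 (minpoly.monic h1)).ne_zero), IsRoot, eval_map_algebraMap, minpoly.aeval]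
      rw [h4, Splits.roots_map h3] at h5
      obtain ⟨y, -, hy⟩ := Multiset.mem_map.1 h5
      exact ⟨y, hy⟩
    obtain ⟨ρ, hρ⟩ := h2
    exact ⟨ρ, hρ⟩
  obtain ⟨ρ, hρ⟩ := hex
  have hinj : Function.Injective ι := ι.toRingHom.injective
  refine ⟨c, ρ, ?_, ?_, ?_⟩
  · apply hinj
    rw [map_pow, hρ, ← Complex.ofReal_pow, hr, map_ofNat]
    simp
  · apply hinj
    rw [hc, hρ, Complex.conj_ofReal]
  · intro k x hk hx
    apply hinj
    have h1 : ‖ι x‖ = 1 := by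
      have h2 : ι x ^ k = 1 := by rw [← map_pow, hx, map_one]
      exact Complex.norm_eq_one_of_pow_eq_one h2 hk.ne'
    rw [map_mul, hc, map_one, mul_comm, Complex.mul_conj, Complex.normSq_eq_norm_sq, h1]
    norm_num

/-- **The contradiction.** -/
theorem not_fixed {n : ℕ} (hn : 3 ≤ n) {s t : W} {a b : ℚ} (hs : s ^ 2 = (a : W))
    (ht : t ^ 2 = (b : W))
    (h : ∀ ρ : W, ρ ^ n = 2 → ∀ κ : W ≃ₐ[ℚ] W, (∀ x : W, x ^ n = 1 → κ x = x) → κ s = s →
      κ t = t → κ ρ = ρ) : False := by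
  have hn0 : 0 < n := by omega
  have hA : Algebra.IsAlgebraic ℚ W := algW
  have hG : IsGalois ℚ W := galoisW
  obtain ⟨c, ρ, hρ, hcρ, hc⟩ := exists_conj hn0
  have hρ0 : ρ ≠ 0 := by
    rintro rfl
    rw [zero_pow hn0.ne'] at hρ
    exact two_ne_zero hρ.symm
  -- an automorphism which multiplies `ρ` by a root of unity of order at least three
  obtain ⟨τ, hτ⟩ : ∃ τ : W ≃ₐ[ℚ] W, τ (ρ ^ 2) ≠ ρ ^ 2 := by
    by_contra hcon
    push Not at hcon
    have h2 : ρ ^ 2 ∈ (⊥ : IntermediateField ℚ W) := (InfiniteGalois.mem_bot_iff_fixed _).2 hcon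
    obtain ⟨r, hr⟩ := IntermediateField.mem_bot.1 h2
    have h3 : r ^ n = 4 := by
      apply (algebraMap ℚ W).injective
      rw [map_pow, hr, ← pow_mul, mul_comm, pow_mul, hρ]
      norm_num
    have h4 := congrArg (padicValRat 2) h3
    rw [padicValRat.pow] at h4
    have h5 : padicValRat 2 (4 : ℚ) = 2 := by
      rw [show (4 : ℚ) = ((2 : ℕ) : ℚ) ^ 2 by norm_num, padicValRat.pow,
        padicValRat.self (by norm_num)]
      norm_num
    rw [h5] at h4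
    have h6 : (n : ℤ) ∣ 2 := ⟨_, h4.symm⟩
    have := Int.le_of_dvd (by norm_num) h6
    omega
  set z := τ ρ / ρ with hz
  have hτρ : τ ρ = z * ρ := by rw [hz, div_mul_cancel₀ _ hρ0]
  have hzn : z ^ n = 1 := by
    rw [hz, div_pow, ← map_pow, hρ, map_ofNat, div_self two_ne_zero]
  have hz2 : z * z ≠ 1 := by
    intro h1
    apply hτ
    rw [map_pow, hτρ, mul_pow, sq z, h1, one_mul]
  -- the commutator
  obtain ⟨ξ, hξ⟩ : ∃ ξ : W, IsPrimitiveRoot ξ n := by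
    have hNe : NeZero ((n : ℕ) : W) := ⟨Nat.cast_ne_zero.2 hn0.ne'⟩
    exact HasEnoughRootsOfUnity.exists_primitiveRoot W n
  have hne : NeZero n := ⟨hn0.ne'⟩
  have hcomm_root : ∀ x : W, x ^ n = 1 → c (τ x) = τ (c x) := by
    intro x hx
    have h1 : ∀ σ : W ≃ₐ[ℚ] W, ∃ k : ℕ, σ ξ = ξ ^ k := by
      intro σ
      obtain ⟨k, -, hk⟩ := hξ.eq_pow_of_pow_eq_one (ξ := σ ξ) (by rw [← map_pow, hξ.pow_eq_one, map_one])
      exact ⟨k, hk.symm⟩
    obtain ⟨k, hk⟩ := h1 c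
    obtain ⟨l, hl⟩ := h1 τ
    obtain ⟨i, -, rfl⟩ := hξ.eq_pow_of_pow_eq_one hx
    rw [map_pow, map_pow, map_pow, map_pow, hl, hk, map_pow, map_pow, hk, hl]
    simp only [← pow_mul]
    congr 1
    ring
  have hcomm_sqrt : ∀ (x : W) (q : ℚ), x ^ 2 = (q : W) → c (τ x) = τ (c x) := by
    intro x q hx
    rcases pm hx c with h1 | h1 <;> rcases pm hx τ with h2 | h2
    · rw [h2, h1, h2]
    · rw [h2, map_neg, h1, h2]
    · rw [h2, h1, map_neg, h2]
    · rw [h2, map_neg, h1, map_neg, h2]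
  have hκ : ∀ x : W, ((τ.symm.trans c.symm) |> fun κ => (τ.trans c).trans κ) x = x ↔
      c (τ x) = τ (c x) := by
    intro x
    change c.symm (τ.symm (c (τ x))) = x ↔ _
    rw [AlgEquiv.symm_apply_eq, AlgEquiv.symm_apply_eq]
  have h1 := (hκ ρ).1 (h ρ hρ _ (fun x hx => (hκ x).2 (hcomm_root x hx))
    ((hκ s).2 (hcomm_sqrt s a hs)) ((hκ t).2 (hcomm_sqrt t b ht)))
  rw [hcρ, hτρ, map_mul, hcρ] at h1
  have h2 : c z = z := mul_right_cancel₀ hρ0 h1
  have h3 := hc n z hn0 hzn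
  rw [h2] at h3
  exact hz2 h3

end Pool.Agent.K3h48.TC
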