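import Pool.Agent.K3h48.TC.Loc
import Pool.Agent.R925.FD.BM

/-!
# Adelic points orthogonal to classes of the Brauer group, exponent `n`
-/

set_option autoImplicit false
set_option linter.unusedSectionVars false

namespace Pool.Agent.K3h48.TC

open Finset Polynomial Pool.Agent.R925.FD

section values

variable {K : Type} [Fintype K] [DecidableEq K]

open Classical in
/-- The value of the `k`-th factor at `(z, w)`, modulo `n`-th powers. -/
noncomputable def cv (b : ℤ) (g : K → ℤ[X]) {F : Type} [Field F] (z w : F) (k : K) : F :=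
  if hom (g k) z w ≠ 0 then hom (g k) z w else b * (∏ l ∈ univ.erase k, hom (g l) z w)⁻¹

variable {b : ℤ} {g : K → ℤ[X]} {F : Type} [Field F] [CharZero F] {z w : F}

lemma cv_of_ne {k : K} (h : hom (g k) z w ≠ 0) : cv b g z w k = hom (g k) z w := if_pos h

lemma cv_of_eq {k : K} (h : hom (g k) z w = 0) :
    cv b g z w k = b * (∏ l ∈ univ.erase k, hom (g l) z w)⁻¹ := if_neg (not_not.2 h)

lemma cv_ne (hb : b ≠ 0) (hg0 : ∀ k, g k ≠ 0) (hgg : ∀ k l, k ≠ l →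
    IsCoprime ((g k).map (Int.castRingHom ℚ)) ((g l).map (Int.castRingHom ℚ)))
    (hzw : z ≠ 0 ∨ w ≠ 0) (k : K) : cv b g z w k ≠ 0 := by
  by_cases h : hom (g k) z w = 0
  · rw [cv_of_eq h]
    exact mul_ne_zero (Int.cast_ne_zero.2 hb) (inv_ne_zero (others hg0 hgg hzw h))
  · rwa [cv_of_ne h]

lemma cv_prod {n : ℕ} (hn : 0 < n) (hg0 : ∀ k, g k ≠ 0) (hgg : ∀ k l, k ≠ l →
    IsCoprime ((g k).map (Int.castRingHom ℚ)) ((g l).map (Int.castRingHom ℚ)))
    (hzw : z ≠ 0 ∨ w ≠ 0) {y : F} (hy : (b : F) * y ^ n = ∏ k, hom (g k) z w) :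
    ∃ t : F, t ≠ 0 ∧ ∏ k, cv b g z w k = b * t ^ n := by
  by_cases h : ∃ k, hom (g k) z w = 0
  · obtain ⟨k, hk⟩ := h
    have h1 : ∏ l ∈ univ.erase k, cv b g z w l = ∏ l ∈ univ.erase k, hom (g l) z w :=
      prod_congr rfl fun l hl =>
        cv_of_ne (coprime_field (hg0 k) (hgg k l (ne_of_mem_erase hl).symm) hzw hk)
    refine ⟨1, one_ne_zero, ?_⟩
    rw [← mul_prod_erase univ _ (mem_univ k), h1, cv_of_eq hk, mul_assoc,
      inv_mul_cancel₀ (others hg0 hgg hzw hk), one_pow]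
  · push Not at h
    have h1 : ∏ k, cv b g z w k = ∏ k, hom (g k) z w := prod_congr rfl fun l _ => cv_of_ne (h l)
    refine ⟨y, ?_, ?_⟩
    · rintro rfl
      rw [zero_pow hn.ne', mul_zero] at hy
      exact prod_ne_zero_iff.2 (fun k _ => h k) hy.symm
    · rw [h1, ← hy]

lemma cv_cov {n : ℕ} (hn : 0 < n) {k : K} {c : F} (h : ∃ y : F, cv b g z w k = c * y ^ n) :
    ∃ y : F, hom (g k) z w = c * y ^ n := by
  by_cases h0 : hom (g k) z w = 0
  · exact ⟨0, by rw [h0, zero_pow hn.ne', mul_zero]⟩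
  · rwa [cv_of_ne h0] at h

end values

section padic

variable {p : ℕ} [hp : Fact p.Prime]

lemma cv_dvd {K : Type} [Fintype K] [DecidableEq K] {n : ℕ} (hn : 0 < n) {g : K → ℤ[X]}
    (hdeg : ∀ k, n ∣ (g k).natDegree)
    (hNC : ∀ u v : ZMod p, (u ≠ 0 ∨ v ≠ 0) → ∀ k l, k ≠ l → hom (g k) u v = 0 → hom (g l) u v ≠ 0)
    {b : ℤ} (hb : b ≠ 0) (hbp : ¬ (p : ℤ) ∣ b) {z w : ℚ_[p]} (hzw : z ≠ 0 ∨ w ≠ 0) {y : ℚ_[p]}
    (hy : (b : ℚ_[p]) * y ^ n = ∏ k, hom (g k) z w) (k : K) :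
    (n : ℤ) ∣ (cv b g z w k).valuation := by
  obtain ⟨c, z', w', hc, hz, hw, hu⟩ := primitive hzw
  have hbv : (b : ℚ_[p]).valuation = 0 := by
    rw [Padic.valuation_intCast, padicValInt.eq_zero_of_not_dvd hbp]
    rfl
  have hb0 : (b : ℚ_[p]) ≠ 0 := Int.cast_ne_zero.2 hb
  -- the factors that do not vanish modulo `p`
  have key : ∀ k, hom (g k) (PadicInt.toZMod z') (PadicInt.toZMod w') ≠ 0 →
      hom (g k) z w ≠ 0 ∧ (n : ℤ) ∣ (hom (g k) z w).valuation := by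
    intro k hk
    rw [← hom_map] at hk
    obtain ⟨e, he⟩ := hdeg k
    have h1 : ((hom (g k) z' w' : ℤ_[p]) : ℚ_[p]) = (c ^ e) ^ n * hom (g k) z w := by
      rw [hom_coe, ← hz, ← hw, hom_mul, he, ← pow_mul, mul_comm e n]
    have h2 := val_of_toZMod hk
    have h3 := coe_ne_zero_of hk
    rw [h1] at h2 h3
    have h4 := right_ne_zero_of_mul h3
    have h5 := left_ne_zero_of_mul h3
    rw [Padic.valuation_mul h5 h4, Padic.valuation_pow] at h2
    refine ⟨h4, ⟨-(c ^ e).valuation, ?_⟩⟩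
    linarith
  by_cases hk : hom (g k) (PadicInt.toZMod z') (PadicInt.toZMod w') = 0
  · have hoth : ∀ l ∈ univ.erase k, hom (g l) z w ≠ 0 ∧ (n : ℤ) ∣ (hom (g l) z w).valuation :=
      fun l hl => key l (hNC _ _ hu k l (ne_of_mem_erase hl).symm hk)
    have hsum : (n : ℤ) ∣ (∏ l ∈ univ.erase k, hom (g l) z w).valuation := by
      rw [val_prod _ _ fun l hl => (hoth l hl).1]
      exact dvd_sum fun l hl => (hoth l hl).2
    have hprod0 : ∏ l ∈ univ.erase k, hom (g l) z w ≠ 0 :=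
      prod_ne_zero_iff.2 fun l hl => (hoth l hl).1
    by_cases h0 : hom (g k) z w = 0
    · rw [cv_of_eq h0, Padic.valuation_mul hb0 (inv_ne_zero hprod0), hbv, zero_add,
        Padic.valuation_inv, dvd_neg]
      exact hsum
    · rw [cv_of_ne h0]
      rw [← mul_prod_erase univ _ (mem_univ k)] at hy
      have hy0 : y ≠ 0 := by
        rintro rfl
        rw [zero_pow hn.ne', mul_zero] at hy
        exact mul_ne_zero h0 hprod0 hy.symm
      have h1 := congrArg Padic.valuation hy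
      rw [Padic.valuation_mul hb0 (pow_ne_zero n hy0), Padic.valuation_mul h0 hprod0, hbv,
        Padic.valuation_pow] at h1
      obtain ⟨r, hr⟩ := hsum
      refine ⟨y.valuation - r, ?_⟩
      rw [mul_sub, ← hr]
      linarith
  · obtain ⟨h1, h2⟩ := key k hk
    rw [cv_of_ne h1]
    exact h2

end padic

section adelic

variable {K : Type} [Fintype K] [DecidableEq K]

/-- A point over `F` of the curve `b * y ^ n = ∏ k, G k (z, w)`, `a * x ^ m = H (z, w)` (in a weighted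
projective space). -/
structure Pt (n m : ℕ) (b a : ℤ) (g : K → ℤ[X]) (h : ℤ[X]) (F : Type) [Field F] where
  /-- the first coordinate -/
  z : F
  /-- the second coordinate -/
  w : F
  /-- the third coordinate -/
  x : F
  /-- the fourth coordinate -/
  y : F
  ne : z ≠ 0 ∨ w ≠ 0
  eq₁ : (b : F) * y ^ n = ∏ k, hom (g k) z w
  eq₂ : (a : F) * x ^ m = hom h z w

/-- An adelic point of the curve. -/
structure APt (n m : ℕ) (b a : ℤ) (g : K → ℤ[X]) (h : ℤ[X]) where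
  /-- the real component -/
  re : Pt n m b a g h ℝ
  /-- the `p`-adic components -/
  pa : ∀ p : Nat.Primes, Pt n m b a g h ℚ_[(p : ℕ)]

open Classical in
/-- The value of `G k` at a point, modulo `n`-th powers; at a zero of `G k` it is computed from the
equation `G k = b y ^ n / ∏ G l`. -/
noncomputable def valueAt {n m : ℕ} {b a : ℤ} {g : K → ℤ[X]} {h : ℤ[X]} {F : Type} [Field F]
    (P : Pt n m b a g h F) (k : K) : F :=
  if hom (g k) P.z P.w ≠ 0 then hom (g k) P.z P.w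
  else b * (∏ l ∈ univ.erase k, hom (g l) P.z P.w)⁻¹

/-- The adelic point is orthogonal to the classes `(G k, χ)`, for all Dirichlet characters `χ` of
prime power modulus with `χ ^ n = 1`: the product of the local symbols of the value of `G k` and `χ`
at all places is `1`. -/
def Orth {n m : ℕ} {b a : ℤ} {g : K → ℤ[X]} {h : ℤ[X]} (P : APt n m b a g h) : Prop :=
  ∀ (k : K) (q : Nat.Primes) (e : ℕ) (χ : DirichletCharacter ℂ ((q : ℕ) ^ e)), χ ^ n = 1 →
    symbR χ (valueAt P.re k) * ∏ᶠ r : Nat.Primes, symb χ (valueAt (P.pa r) k) = 1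

/-- The image of a point under a homomorphism of fields. -/
def Pt.map {n m : ℕ} {b a : ℤ} {g : K → ℤ[X]} {h : ℤ[X]} {F L : Type} [Field F] [Field L]
    (φ : F →+* L) (P : Pt n m b a g h F) : Pt n m b a g h L where
  z := φ P.z
  w := φ P.w
  x := φ P.x
  y := φ P.y
  ne := P.ne.imp (map_ne_zero φ).2 (map_ne_zero φ).2
  eq₁ := by
    simp only [← hom_map]
    rw [← map_pow, ← map_intCast φ, ← map_mul, P.eq₁, map_prod]
  eq₂ := by rw [← hom_map, ← map_pow, ← map_intCast φ, ← map_mul, P.eq₂]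

/-- The adelic point of a rational point. -/
noncomputable def ofRat {n m : ℕ} {b a : ℤ} {g : K → ℤ[X]} {h : ℤ[X]} (P : Pt n m b a g h ℚ) :
    APt n m b a g h where
  re := P.map (Rat.castHom ℝ)
  pa := fun p => P.map (Rat.castHom ℚ_[(p : ℕ)])

/-- The element `v` of `F` is the rational number `c` up to `n`-th powers. -/
def UpTo (n : ℕ) (c : ℚ) {F : Type} [Field F] (v : F) : Prop := ∃ y : F, v = (c : F) * y ^ n

/-- The values of `G k` at the adelic point are `δ k` up to `n`-th powers, at all places. -/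
def HasClass {n m : ℕ} {b a : ℤ} {g : K → ℤ[X]} {h : ℤ[X]} (P : APt n m b a g h) (δ : K → ℚ) :
    Prop :=
  IsClass n b δ ∧ (∀ k, UpTo n (δ k) (valueAt P.re k)) ∧
    ∀ k (p : Nat.Primes), UpTo n (δ k) (valueAt (P.pa p) k)

variable {n : ℕ} {b : ℤ} {g : K → ℤ[X]} {h : ℤ[X]}

/-- the valuations of the values are divisible by `n` at almost all primes -/
lemma fin_dvd (hn : 0 < n) (hb : b ≠ 0) (hg0 : ∀ k, g k ≠ 0) (hh0 : h ≠ 0)
    (hdeg : ∀ k, n ∣ (g k).natDegree)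
    (hgg : ∀ k l, k ≠ l →
      IsCoprime ((g k).map (Int.castRingHom ℚ)) ((g l).map (Int.castRingHom ℚ)))
    (hgh : ∀ k, IsCoprime (h.map (Int.castRingHom ℚ)) ((g k).map (Int.castRingHom ℚ)))
    {m : ℕ} {a : ℤ} (P : APt n m b a g h) (k : K) :
    {r : Nat.Primes | ¬ (n : ℤ) ∣ (valueAt (P.pa r) k).valuation}.Finite := by
  obtain ⟨N, hN, hgood⟩ := good_primes g h hg0 hh0 hgg hgh
  have h1 : {p : Nat.Primes | (p : ℕ) ≤ max N b.natAbs}.Finite := by
    have h2 : (Set.Iic (max N b.natAbs)).Finite := Set.finite_Iic _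
    exact h2.preimage (Subtype.val_injective.injOn)
  refine h1.subset fun r hr => ?_
  by_contra hcon
  have hcon' : max N b.natAbs < (r : ℕ) := not_le.1 hcon
  have h1 : ¬ (r : ℕ) ∣ N := fun h => by
    have := Nat.le_of_dvd hN h
    omega
  have h2 : ¬ ((r : ℕ) : ℤ) ∣ b := fun h => by
    have := Nat.le_of_dvd (Int.natAbs_pos.2 hb) (Int.natCast_dvd.1 h)
    omega
  exact hr (cv_dvd hn hdeg (fun u v huv => (hgood r ⟨r.2⟩ h1 u v huv).1) hb h2 (P.pa r).ne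
    (P.pa r).eq₁ k)

/-- a rational number which is locally an `n`-th power -/
lemma npow_of_local (hn : 0 < n) {c : ℚ} (hc : c ≠ 0) (hR : ∃ y : ℝ, (c : ℝ) = y ^ n)
    (hp : ∀ p : Nat.Primes, ∃ y : ℚ_[(p : ℕ)], (c : ℚ_[(p : ℕ)]) = y ^ n) : ∃ t : ℚ, c = t ^ n := by
  obtain ⟨s, t, hs, ht, hst⟩ := rep c hc 1 one_pos n hn (by
    intro p hp1 _
    have hpF : Fact p.Prime := ⟨hp1⟩
    obtain ⟨y, hy⟩ := hp ⟨p, hp1⟩
    change (c : ℚ_[p]) = y ^ n at hy
    have h1 := congrArg Padic.valuation hy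
    rw [Padic.valuation_ratCast, Padic.valuation_pow] at h1
    rw [h1]
    exact dvd_mul_right _ _)
  rw [Nat.cast_one, one_pow] at hs
  rcases Int.isUnit_iff.1 (isUnit_of_dvd_one hs) with h1 | h1
  · refine ⟨t, ?_⟩
    rw [hst, h1, Int.cast_one, one_mul]
  · rcases Nat.even_or_odd n with h2 | h2
    · exfalso
      obtain ⟨y, hy⟩ := hR
      have h3 : (0 : ℝ) ≤ c := by
        rw [hy]
        exact h2.pow_nonneg y
      have h4 : c < 0 := by
        rw [hst, h1, Int.cast_neg, Int.cast_one, neg_one_mul, neg_lt_zero]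
        exact h2.pow_pos ht
      have h5 : (c : ℝ) < 0 := Rat.cast_lt_zero.2 h4
      linarith
    · refine ⟨-t, ?_⟩
      rw [hst, h1, h2.neg_pow, Int.cast_neg, Int.cast_one, neg_one_mul]

/-- An orthogonal adelic point has a class. -/
theorem class_of_orth (hn : 0 < n) (hb : b ≠ 0) (hg0 : ∀ k, g k ≠ 0) (hh0 : h ≠ 0)
    (hdeg : ∀ k, n ∣ (g k).natDegree)
    (hgg : ∀ k l, k ≠ l →
      IsCoprime ((g k).map (Int.castRingHom ℚ)) ((g l).map (Int.castRingHom ℚ)))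
    (hgh : ∀ k, IsCoprime (h.map (Int.castRingHom ℚ)) ((g k).map (Int.castRingHom ℚ)))
    {m : ℕ} {a : ℤ} (P : APt n m b a g h) (hP : Orth P) : ∃ δ : K → ℚ, HasClass P δ := by
  classical
  have hvr : ∀ k, valueAt P.re k ≠ 0 := fun k => cv_ne hb hg0 hgg P.re.ne k
  have hvp : ∀ (p : Nat.Primes) (k : K), valueAt (P.pa p) k ≠ 0 :=
    fun p k => cv_ne hb hg0 hgg (P.pa p).ne k
  have hex : ∀ k, ∃ c : ℚ, c ≠ 0 ∧ (∃ y : ℝ, valueAt P.re k = c * y ^ n) ∧
      ∀ r : Nat.Primes, ∃ y : ℚ_[(r : ℕ)], valueAt (P.pa r) k = ((c : ℚ) : ℚ_[(r : ℕ)]) * y ^ n :=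
    fun k => exists_rat_of_orth hn (fun r => valueAt (P.pa r) k) (fun r => hvp r k)
      (fin_dvd hn hb hg0 hh0 hdeg hgg hgh P k) (hvr k) (hP k)
  choose δ hδ0 hδR hδp using hex
  have hb' : (b : ℚ) ≠ 0 := Int.cast_ne_zero.2 hb
  have hprod : ∀ {F : Type} [Field F] [CharZero F] (v : K → F), (∀ k, v k ≠ 0) →
      (∀ k, ∃ y : F, v k = (δ k : F) * y ^ n) → (∃ t : F, t ≠ 0 ∧ ∏ k, v k = b * t ^ n) →
      ∃ y : F, (((∏ k, δ k) / b : ℚ) : F) = y ^ n := by
    intro F _ _ v hv hvn hdv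
    choose y hy using hvn
    obtain ⟨t, ht, htp⟩ := hdv
    have hy0 : ∀ k, y k ≠ 0 := by
      intro k h1
      apply hv k
      rw [hy k, h1, zero_pow hn.ne', mul_zero]
    refine ⟨t * (∏ k, y k)⁻¹, ?_⟩
    have h1 : ∏ k, v k = (∏ k, (δ k : F)) * (∏ k, y k) ^ n := by
      rw [← Finset.prod_pow, ← Finset.prod_mul_distrib]
      exact Finset.prod_congr rfl fun k _ => hy k
    have h2 : (∏ k, y k) ^ n ≠ 0 := pow_ne_zero _ (Finset.prod_ne_zero_iff.2 fun k _ => hy0 k)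
    have hbF : (b : F) ≠ 0 := Int.cast_ne_zero.2 hb
    rw [mul_pow, inv_pow, Rat.cast_div, Rat.cast_intCast, Rat.cast_prod]
    rw [htp] at h1
    field_simp
    rw [← h1]
  obtain ⟨t, ht⟩ := npow_of_local (c := (∏ k, δ k) / b) hn
    (div_ne_zero (Finset.prod_ne_zero_iff.2 fun k _ => hδ0 k) hb')
    (hprod (fun k => valueAt P.re k) hvr hδR (cv_prod hn hg0 hgg P.re.ne P.re.eq₁))
    (fun p => hprod (fun k => valueAt (P.pa p) k) (hvp p) (fun k => hδp k p)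
      (cv_prod hn hg0 hgg (P.pa p).ne (P.pa p).eq₁))
  refine ⟨δ, ⟨hδ0, t, ?_⟩, hδR, hδp⟩
  rw [← ht]
  field_simp

/-- Only finitely many symbols are different from `1`. -/
theorem symb_finite (hn : 0 < n) (hb : b ≠ 0) (hg0 : ∀ k, g k ≠ 0) (hh0 : h ≠ 0)
    (hdeg : ∀ k, n ∣ (g k).natDegree)
    (hgg : ∀ k l, k ≠ l →
      IsCoprime ((g k).map (Int.castRingHom ℚ)) ((g l).map (Int.castRingHom ℚ)))
    (hgh : ∀ k, IsCoprime (h.map (Int.castRingHom ℚ)) ((g k).map (Int.castRingHom ℚ)))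
    {m : ℕ} {a : ℤ} (P : APt n m b a g h) (k : K) (q : Nat.Primes) (e : ℕ)
    (χ : DirichletCharacter ℂ ((q : ℕ) ^ e)) (hχ : χ ^ n = 1) :
    {r : Nat.Primes | symb χ (valueAt (P.pa r) k) ≠ 1}.Finite :=
  fin_of_val χ hχ _ (fin_dvd hn hb hg0 hh0 hdeg hgg hgh P k)

lemma valueAt_map {m : ℕ} {a : ℤ} {F L : Type} [Field F] [Field L] (φ : F →+* L)
    (P : Pt n m b a g h F) (k : K) : valueAt (P.map φ) k = φ (valueAt P k) := by
  have h1 : ∀ l, hom (g l) (P.map φ).z (P.map φ).w = φ (hom (g l) P.z P.w) := fun l =>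
    (hom_map (g l) φ P.z P.w).symm
  unfold valueAt
  by_cases h : hom (g k) P.z P.w = 0
  · rw [if_neg (not_not.2 h), if_neg (not_not.2 (by rw [h1, h, map_zero])), map_mul, map_inv₀,
      map_prod, map_intCast]
    simp only [h1]
  · rw [if_pos h, if_pos (by rw [h1]; exact (map_ne_zero φ).2 h), h1]

/-- The adelic points of rational points are orthogonal. -/
theorem orth_ofRat (hb : b ≠ 0) (hg0 : ∀ k, g k ≠ 0)
    (hgg : ∀ k l, k ≠ l →
      IsCoprime ((g k).map (Int.castRingHom ℚ)) ((g l).map (Int.castRingHom ℚ)))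
    {m : ℕ} {a : ℤ} (P : Pt n m b a g h ℚ) : Orth (ofRat P) := by
  intro k q e χ _
  have h0 : valueAt P k ≠ 0 := cv_ne hb hg0 hgg P.ne k
  have h1 := product_formula χ h0
  unfold tot at h1
  unfold ofRat
  simp only [valueAt_map]
  exact h1

/-- **The theorem on orthogonal adelic points.** -/
theorem orth_main (hn : 0 < n) (hb : b ≠ 0) (hg0 : ∀ k, g k ≠ 0) (hh0 : h ≠ 0)
    (hdeg : ∀ k, n ∣ (g k).natDegree)
    (hgg : ∀ k l, k ≠ l →
      IsCoprime ((g k).map (Int.castRingHom ℚ)) ((g l).map (Int.castRingHom ℚ)))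
    (hgh : ∀ k, IsCoprime (h.map (Int.castRingHom ℚ)) ((g k).map (Int.castRingHom ℚ))) :
    ∃ κ : ℝ, 0 < κ ∧ ∃ C : ℝ, ∀ X : ℕ, 3 ≤ X →
      ({a : ℤ | a.natAbs ≤ X ∧ Squarefree a ∧ ∃ m, 2 ≤ m ∧ m ∣ h.natDegree ∧
        ∃ P : APt n m b a g h, Orth P ∧ ¬ ∃ δ : K → ℚ, HasClass P δ ∧ Persistent n g h δ}.ncard : ℝ)
        ≤ C * X * (Real.log X) ^ (-κ) := by
  obtain ⟨κ, hκ, C, hC⟩ := main n hn b hb g h hg0 hh0 hdeg hgg hgh
  refine ⟨κ, hκ, C, fun X hX => le_trans ?_ (hC X hX)⟩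
  refine Nat.cast_le.2 (Set.ncard_le_ncard ?_ ?_)
  · rintro a ⟨h1, h2, m, hm, hmh, P, hP, hno⟩
    obtain ⟨δ, hδ⟩ := class_of_orth hn hb hg0 hh0 hdeg hgg hgh P hP
    refine ⟨h1, h2, m, hm, hmh, δ, hδ.1, fun hper => hno ⟨δ, hδ, hper⟩, ?_⟩
    intro p hp
    exact ⟨(P.pa ⟨p, hp.out⟩).z, (P.pa ⟨p, hp.out⟩).w, (P.pa ⟨p, hp.out⟩).x,
      (P.pa ⟨p, hp.out⟩).ne, (P.pa ⟨p, hp.out⟩).eq₂, fun k => cv_cov hn (hδ.2.2 k ⟨p, hp.out⟩)⟩
  · apply (Set.finite_Icc (-(X : ℤ)) X).subset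
    intro d hd
    have h1 : d.natAbs ≤ X := hd.1
    rw [Set.mem_Icc]
    omega

end adelic

end Pool.Agent.K3h48.TC
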