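import Pool.Agent.K3h48.TC.Ex
import Pool.Agent.K3h48.TC.Main

/-!
# An example for every exponent at least three: the polynomials
-/

set_option autoImplicit false
set_option linter.unusedSectionVars false

namespace Pool.Agent.K3h48.TC

open Polynomial Pool.Agent.R925.FD

/-- the polynomial `h` of the example -/
noncomputable def xh (p q : ℤ) : ℤ[X] := (X ^ 2 - C p) * (X ^ 2 - C q) * (X ^ 2 - C (p * q))

/-- the integer `(q - p) (q - p q)` -/
def xr (p q : ℤ) : ℤ := (q - p) * (q - p * q)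

/-- the first factor -/
noncomputable def xg0 (n : ℕ) (p q : ℤ) : ℤ[X] :=
  xh p q ^ n + (C (xr p q ^ n) + C (xr p q ^ (n - 1)) * ((X ^ 2 - C p) * (X ^ 2 - C (p * q))))

/-- the two factors of the example -/
noncomputable def xg (n : ℕ) (p q : ℤ) : Fin 2 → ℤ[X] :=
  ![xg0 n p q, xg0 n p q ^ (n - 1) + xh p q ^ n]

lemma deg_sq (c : ℤ) : (X ^ 2 - C c : ℤ[X]).natDegree = 2 := natDegree_X_pow_sub_C

lemma sq_ne (c : ℤ) : (X ^ 2 - C c : ℤ[X]) ≠ 0 := (monic_X_pow_sub_C c two_ne_zero).ne_zero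

lemma xh_monic (p q : ℤ) : (xh p q).Monic :=
  ((monic_X_pow_sub_C p two_ne_zero).mul (monic_X_pow_sub_C q two_ne_zero)).mul
    (monic_X_pow_sub_C (p * q) two_ne_zero)

lemma xh_deg (p q : ℤ) : (xh p q).natDegree = 6 := by
  unfold xh
  rw [natDegree_mul (mul_ne_zero (sq_ne p) (sq_ne q)) (sq_ne _), natDegree_mul (sq_ne p) (sq_ne q),
    deg_sq, deg_sq, deg_sq]

lemma low_deg (n : ℕ) (p q : ℤ) : (C (xr p q ^ n) + C (xr p q ^ (n - 1)) *
    ((X ^ 2 - C p) * (X ^ 2 - C (p * q))) : ℤ[X]).natDegree ≤ 4 := by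
  refine (natDegree_add_le _ _).trans (max_le ?_ ?_)
  · rw [natDegree_C]
    exact Nat.zero_le _
  · refine (natDegree_C_mul_le _ _).trans (natDegree_mul_le.trans ?_)
    rw [deg_sq, deg_sq]

lemma xg0_monic {n : ℕ} (hn : 0 < n) (p q : ℤ) : (xg0 n p q).Monic := by
  unfold xg0
  refine ((xh_monic p q).pow n).add_of_left ?_
  refine degree_lt_degree ?_
  rw [natDegree_pow, xh_deg]
  exact lt_of_le_of_lt (low_deg n p q) (by omega)

lemma xg0_deg {n : ℕ} (hn : 0 < n) (p q : ℤ) : (xg0 n p q).natDegree = n * 6 := by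
  unfold xg0
  rw [natDegree_add_eq_left_of_natDegree_lt]
  · rw [natDegree_pow, xh_deg]
  · rw [natDegree_pow, xh_deg]
    exact lt_of_le_of_lt (low_deg n p q) (by omega)

lemma xg1_aux {n : ℕ} (hn : 3 ≤ n) (p q : ℤ) :
    (xh p q ^ n).natDegree < (xg0 n p q ^ (n - 1)).natDegree := by
  rw [natDegree_pow, natDegree_pow, xh_deg, xg0_deg (by omega)]
  have h1 : 2 ≤ n - 1 := by omega
  nlinarith

lemma xg1_deg {n : ℕ} (hn : 3 ≤ n) (p q : ℤ) :
    (xg0 n p q ^ (n - 1) + xh p q ^ n).natDegree = (n - 1) * (n * 6) := by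
  rw [natDegree_add_eq_left_of_natDegree_lt (xg1_aux hn p q), natDegree_pow, xg0_deg (by omega)]

lemma xg_ne {n : ℕ} (hn : 3 ≤ n) (p q : ℤ) (k : Fin 2) : xg n p q k ≠ 0 := by
  fin_cases k
  · exact (xg0_monic (by omega) p q).ne_zero
  · exact (((xg0_monic (by omega) p q).pow (n - 1)).add_of_left
      (degree_lt_degree (xg1_aux hn p q))).ne_zero

lemma xg_deg {n : ℕ} (hn : 3 ≤ n) (p q : ℤ) (k : Fin 2) : n ∣ (xg n p q k).natDegree := by
  fin_cases k
  · change n ∣ (xg0 n p q).natDegree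
    rw [xg0_deg (by omega)]
    exact dvd_mul_right _ _
  · change n ∣ (xg0 n p q ^ (n - 1) + xh p q ^ n).natDegree
    rw [xg1_deg hn]
    exact Dvd.dvd.mul_left (dvd_mul_right _ _) _

section coprime

lemma cop_const {c : ℚ} (hc : c ≠ 0) {f g : ℚ[X]} (u : ℚ[X]) (h : g = C c + f * u) :
    IsCoprime f g := by
  rw [h]
  exact (IsCoprime.add_mul_left_right
    (isCoprime_one_right.of_isCoprime_of_dvd_right (isUnit_C.2 (isUnit_iff_ne_zero.2 hc)).dvd) u)

variable {n : ℕ} {p q : ℤ}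

lemma map_sq (c : ℤ) : (X ^ 2 - C c : ℤ[X]).map (Int.castRingHom ℚ) = X ^ 2 - C (c : ℚ) := by
  rw [Polynomial.map_sub, Polynomial.map_pow, map_X, map_C]
  rfl

lemma map_xh (p q : ℤ) : (xh p q).map (Int.castRingHom ℚ) =
    (X ^ 2 - C (p : ℚ)) * (X ^ 2 - C (q : ℚ)) * (X ^ 2 - C ((p * q : ℤ) : ℚ)) := by
  unfold xh
  rw [Polynomial.map_mul, Polynomial.map_mul, map_sq, map_sq, map_sq]

/-- the lower part of the first factor -/
noncomputable def low (n : ℕ) (p q : ℤ) : ℚ[X] :=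
  C ((xr p q : ℚ) ^ n) + C ((xr p q : ℚ) ^ (n - 1)) *
    ((X ^ 2 - C (p : ℚ)) * (X ^ 2 - C ((p * q : ℤ) : ℚ)))

lemma map_xg0 (n : ℕ) (p q : ℤ) : (xg0 n p q).map (Int.castRingHom ℚ) =
    (xh p q).map (Int.castRingHom ℚ) ^ n + low n p q := by
  unfold xg0 low
  rw [Polynomial.map_add, Polynomial.map_pow, Polynomial.map_add, Polynomial.map_mul,
    Polynomial.map_mul, map_sq, map_sq, map_C, map_C]
  simp

lemma cop_low (hn : 0 < n) (hr : xr p q ≠ 0) :
    IsCoprime ((xh p q).map (Int.castRingHom ℚ)) (low n p q) := by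
  have hr' : (xr p q : ℚ) ≠ 0 := Int.cast_ne_zero.2 hr
  have hp : (xr p q : ℚ) ^ n = (xr p q : ℚ) ^ (n - 1) * (xr p q : ℚ) := by
    rw [← pow_succ, Nat.sub_add_cancel hn]
  rw [map_xh]
  refine IsCoprime.mul_left (IsCoprime.mul_left ?_ ?_) ?_
  · refine cop_const (c := (xr p q : ℚ) ^ n) (pow_ne_zero _ hr')
      (C ((xr p q : ℚ) ^ (n - 1)) * (X ^ 2 - C ((p * q : ℤ) : ℚ))) ?_
    unfold low
    ring
  · refine cop_const (c := 2 * (xr p q : ℚ) ^ n) (mul_ne_zero two_ne_zero (pow_ne_zero _ hr'))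
      (C ((xr p q : ℚ) ^ (n - 1)) * (X ^ 2 + C ((q : ℚ) - p - p * q))) ?_
    unfold low
    rw [hp, xr]
    push_cast
    simp only [C_mul, C_sub]
    have h2 : (C (2 : ℚ) : ℚ[X]) = 2 := rfl
    rw [h2]
    ring
  · refine cop_const (c := (xr p q : ℚ) ^ n) (pow_ne_zero _ hr')
      (C ((xr p q : ℚ) ^ (n - 1)) * (X ^ 2 - C (p : ℚ))) ?_
    unfold low
    ring

lemma cop_h0 (hn : 0 < n) (hr : xr p q ≠ 0) :
    IsCoprime ((xh p q).map (Int.castRingHom ℚ)) ((xg0 n p q).map (Int.castRingHom ℚ)) := by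
  rw [map_xg0]
  have h1 := IsCoprime.add_mul_left_right (cop_low hn hr)
    ((xh p q).map (Int.castRingHom ℚ) ^ (n - 1))
  rwa [← pow_succ', Nat.sub_add_cancel hn, add_comm] at h1

lemma cop_h1 (hn : 3 ≤ n) (hr : xr p q ≠ 0) :
    IsCoprime ((xh p q).map (Int.castRingHom ℚ))
      ((xg0 n p q ^ (n - 1) + xh p q ^ n).map (Int.castRingHom ℚ)) := by
  rw [Polynomial.map_add, Polynomial.map_pow, Polynomial.map_pow]
  have h0 : IsCoprime ((xh p q).map (Int.castRingHom ℚ))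
      ((xg0 n p q).map (Int.castRingHom ℚ) ^ (n - 1)) :=
    (cop_h0 (n := n) (by omega) hr).pow_right
  have h1 := IsCoprime.add_mul_left_right h0 ((xh p q).map (Int.castRingHom ℚ) ^ (n - 1))
  have h2 : n - 1 + 1 = n := by omega
  rwa [← pow_succ', h2] at h1

lemma cop_01 (hn : 3 ≤ n) (hr : xr p q ≠ 0) :
    IsCoprime ((xg0 n p q).map (Int.castRingHom ℚ))
      ((xg0 n p q ^ (n - 1) + xh p q ^ n).map (Int.castRingHom ℚ)) := by
  rw [Polynomial.map_add, Polynomial.map_pow, Polynomial.map_pow]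
  have h1 := IsCoprime.add_mul_left_right ((cop_h0 (n := n) (by omega) hr).symm.pow_right (n := n))
    ((xg0 n p q).map (Int.castRingHom ℚ) ^ (n - 2))
  have h2 : n - 2 + 1 = n - 1 := by omega
  rwa [← pow_succ', h2, add_comm] at h1

lemma xg_coprime (hn : 3 ≤ n) (hr : xr p q ≠ 0) (k l : Fin 2) (hkl : k ≠ l) :
    IsCoprime ((xg n p q k).map (Int.castRingHom ℚ)) ((xg n p q l).map (Int.castRingHom ℚ)) := by
  fin_cases k <;> fin_cases l
  · exact absurd rfl hkl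
  · exact cop_01 hn hr
  · exact (cop_01 hn hr).symm
  · exact absurd rfl hkl

lemma xgh_coprime (hn : 3 ≤ n) (hr : xr p q ≠ 0) (k : Fin 2) :
    IsCoprime ((xh p q).map (Int.castRingHom ℚ)) ((xg n p q k).map (Int.castRingHom ℚ)) := by
  fin_cases k
  · exact cop_h0 (by omega) hr
  · exact cop_h1 hn hr

end coprime

section points

variable {n : ℕ} {p q : ℤ}

lemma eval_h {L : Type} [Field L] {β : L} (h : β ^ 2 = p ∨ β ^ 2 = q ∨ β ^ 2 = p * q) :
    hom (xh p q) β 1 = 0 := by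
  rw [hom_one]
  unfold xh
  rw [eval₂_mul, eval₂_mul, eval₂_sub, eval₂_sub, eval₂_sub, eval₂_X_pow, eval₂_C, eval₂_C, eval₂_C]
  rcases h with h | h | h <;> rw [h] <;> simp

lemma eval_prod (hn : 0 < n) {L : Type} [Field L] {β : L} (h : hom (xh p q) β 1 = 0) :
    ∏ k, hom (xg n p q k) β 1 = (hom (xg0 n p q) β 1) ^ n := by
  rw [Fin.prod_univ_two]
  change hom (xg0 n p q) β 1 * hom (xg0 n p q ^ (n - 1) + xh p q ^ n) β 1 = _
  rw [hom_one] at h
  rw [hom_one, hom_one, eval₂_add, eval₂_pow, eval₂_pow, h, zero_pow hn.ne', add_zero,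
    ← pow_succ', Nat.sub_add_cancel hn]

/-- the points over the zeros of `h` -/
lemma ex_pt (hn : 0 < n) {m : ℕ} (hm : m ≠ 0) (a : ℤ) {L : Type} [Field L]
    (hL : ∃ β : L, β ^ 2 = p ∨ β ^ 2 = q ∨ β ^ 2 = p * q) :
    Nonempty (Pt n m 1 a (xg n p q) (xh p q) L) := by
  obtain ⟨β, hβ⟩ := hL
  have h := eval_h hβ
  exact ⟨⟨β, 1, 0, hom (xg0 n p q) β 1, Or.inr one_ne_zero, by
    rw [eval_prod hn h, Int.cast_one, one_mul], by rw [h, zero_pow hm, mul_zero]⟩⟩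

end points

section persist

variable {n : ℕ} {p q : ℕ}

lemma aeval_h {β : W} (h : aeval β (xh p q) = 0) :
    β ^ 2 = p ∨ β ^ 2 = q ∨ β ^ 2 = p * q := by
  unfold xh at h
  rw [map_mul, map_mul, map_sub, map_sub, map_sub, map_pow, aeval_X, aeval_C, aeval_C, aeval_C] at h
  rcases mul_eq_zero.1 h with h2 | h2
  · rcases mul_eq_zero.1 h2 with h3 | h3
    · left
      rw [sub_eq_zero.1 h3]
      simp
    · right; left
      rw [sub_eq_zero.1 h3]
      simp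
  · right; right
    rw [sub_eq_zero.1 h2]
    simp

lemma aeval_g0 (hn : 0 < n) {β : W} (h : aeval β (xh p q) = 0) :
    aeval β (xg0 n p q) = ((xr p q : ℤ) : W) ^ n + ((xr p q : ℤ) : W) ^ (n - 1) *
      ((β ^ 2 - p) * (β ^ 2 - p * q)) := by
  unfold xg0
  rw [map_add, map_pow, h, zero_pow hn.ne', zero_add, map_add, map_mul, map_mul, map_sub, map_sub,
    map_pow (aeval β) X, aeval_X, aeval_C, aeval_C, aeval_C, aeval_C]
  simp

/-- **No class of the example is persistent.** -/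
theorem ex_not_pers (hn : 3 ≤ n) (hp : p.Prime) (hq : q.Prime) (hp4 : p % 4 = 1) (hq4 : q % 4 = 1)
    (hpq : p ≠ q) (hpn : ¬ p ∣ n) (hqn : ¬ q ∣ n) (hr : xr p q ≠ 0) (δ : Fin 2 → ℚ) (hδ : δ 0 ≠ 0) :
    ¬ Persistent n (xg n p q) (xh p q) δ := by
  intro hper
  have hn0 : 0 < n := by omega
  have hroot : ∀ (x : W) (k : ℕ), 0 < k → ∃ y : W, y ^ k = x := fun x k hk =>
    IsAlgClosed.exists_pow_nat_eq x hk
  obtain ⟨s, hs⟩ := hroot (p : W) 2 two_pos
  obtain ⟨t, ht⟩ := hroot (q : W) 2 two_pos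
  obtain ⟨θ, hθ⟩ := hroot ((δ 0 : ℚ) : W) n hn0
  have hs0 : s ≠ 0 := by
    rintro rfl
    rw [zero_pow two_ne_zero] at hs
    exact (Nat.cast_ne_zero.2 hp.ne_zero : ((p : ℕ) : W) ≠ 0) hs.symm
  have ht0 : t ≠ 0 := by
    rintro rfl
    rw [zero_pow two_ne_zero] at ht
    exact (Nat.cast_ne_zero.2 hq.ne_zero : ((q : ℕ) : W) ≠ 0) ht.symm
  have hδW : ((δ 0 : ℚ) : W) ≠ 0 := Rat.cast_ne_zero.2 hδ
  have hθ0 : θ ≠ 0 := by
    rintro rfl
    rw [zero_pow hn0.ne'] at hθ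
    exact hδW hθ.symm
  set R : W := ((xr p q : ℤ) : W) with hR
  have hR0 : R ≠ 0 := Int.cast_ne_zero.2 hr
  have hRσ : ∀ σ : W ≃ₐ[ℚ] W, σ R = R := fun σ => by rw [hR, map_intCast]
  -- automorphisms which move the square root of `q`
  have key1 : ∀ σ : W ≃ₐ[ℚ] W, (∀ x : W, x ^ n = 1 → σ x = x) → σ s = s → σ t = -t → σ θ = θ := by
    intro σ hσ hσs hσt
    obtain ⟨β, hβ, hβh, hy⟩ := hper σ
    obtain ⟨y, hyσ, hyk⟩ := hy 0
    change aeval β (xg0 n p q) = _ at hyk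
    rw [aeval_g0 hn0 hβh] at hyk
    have hval : R ^ n = (θ * y) ^ n := by
      rw [mul_pow, hθ, ← hyk]
      rcases aeval_h hβh with h3 | h3 | h3
      · rw [h3, sub_self, zero_mul, mul_zero, add_zero]
      · exact absurd hβ (moved (by rw [h3, ht]) hσt ht0)
      · rw [h3, sub_self, mul_zero, mul_zero, add_zero]
    have hy0 : y ≠ 0 := by
      rintro rfl
      rw [mul_zero, zero_pow hn0.ne'] at hval
      exact pow_ne_zero _ hR0 hval
    have h1 : (θ * y / R) ^ n = 1 := by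
      rw [div_pow, ← hval, div_self (pow_ne_zero _ hR0)]
    have h2 := hσ _ h1
    rw [map_div₀, map_mul, hyσ, hRσ] at h2
    have h3 := (div_left_inj' hR0).1 h2
    exact mul_right_cancel₀ hy0 h3
  have key2 : ∀ ρ : W, ρ ^ n = 2 → ∀ σ : W ≃ₐ[ℚ] W, (∀ x : W, x ^ n = 1 → σ x = x) → σ s = -s →
      σ t = t → σ (ρ / θ) = ρ / θ := by
    intro ρ hρ σ hσ hσs hσt
    have hρ0 : ρ ≠ 0 := by
      rintro rfl
      rw [zero_pow hn0.ne'] at hρ
      exact two_ne_zero hρ.symm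
    obtain ⟨β, hβ, hβh, hy⟩ := hper σ
    obtain ⟨y, hyσ, hyk⟩ := hy 0
    change aeval β (xg0 n p q) = _ at hyk
    rw [aeval_g0 hn0 hβh] at hyk
    have hval : (ρ * R) ^ n = (θ * y) ^ n := by
      rw [mul_pow θ, hθ, ← hyk, mul_pow, hρ]
      rcases aeval_h hβh with h3 | h3 | h3
      · exact absurd hβ (moved (by rw [h3, hs]) hσs hs0)
      · have h4 : R ^ n = R ^ (n - 1) * R := by rw [← pow_succ, Nat.sub_add_cancel hn0]
        have h5 : R = ((q : W) - p) * (q - p * q) := by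
          rw [hR, xr]
          push_cast
          ring
        rw [h3, h4, ← h5]
        ring
      · refine absurd hβ (moved (x := s * t) (by rw [h3, mul_pow, hs, ht]) ?_ (mul_ne_zero hs0 ht0))
        rw [map_mul, hσs, hσt]
        ring
    have hy0 : y ≠ 0 := by
      rintro rfl
      rw [mul_zero, zero_pow hn0.ne'] at hval
      exact pow_ne_zero _ (mul_ne_zero hρ0 hR0) hval
    have h1 : (ρ * R / (θ * y)) ^ n = 1 := by
      rw [div_pow, hval, div_self (pow_ne_zero _ (mul_ne_zero hθ0 hy0))]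
    have h2 := hσ _ h1
    have h3 : ρ * R / (θ * y) = (ρ / θ) * (R / y) := by
      field_simp
    rw [h3, map_mul, map_div₀ σ R y, hyσ, hRσ] at h2
    exact mul_right_cancel₀ (div_ne_zero hR0 hy0) h2
  refine not_fixed hn (s := s) (t := t) (a := p) (b := q) (by rw [hs]; simp) (by rw [ht]; simp) ?_
  intro ρ hρ κ hκ hκs hκt
  obtain ⟨τ₁, h1, h1s, h1t⟩ := exists_sqrt_move hn0 hp hq hp4 hq4 hpq hqn hs ht
  obtain ⟨τ₂, h2, h2t, h2s⟩ := exists_sqrt_move hn0 hq hp hq4 hp4 hpq.symm hpn ht hs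
  have hθκ : κ θ = θ := by
    have h3 := key1 τ₁ h1 h1s h1t
    have h4 := key1 (τ₁.trans κ) (fun x hx => by rw [AlgEquiv.trans_apply, h1 x hx, hκ x hx])
      (by rw [AlgEquiv.trans_apply, h1s, hκs]) (by rw [AlgEquiv.trans_apply, h1t, map_neg, hκt])
    rwa [AlgEquiv.trans_apply, h3] at h4
  have hρκ : κ (ρ / θ) = ρ / θ := by
    have h3 := key2 ρ hρ τ₂ h2 h2s h2t
    have h4 := key2 ρ hρ (τ₂.trans κ) (fun x hx => by rw [AlgEquiv.trans_apply, h2 x hx, hκ x hx])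
      (by rw [AlgEquiv.trans_apply, h2s, map_neg, hκs]) (by rw [AlgEquiv.trans_apply, h2t, hκt])
    rwa [AlgEquiv.trans_apply, h3] at h4
  rw [map_div₀, hθκ] at hρκ
  exact (div_left_inj' hθ0).1 hρκ

end persist

end Pool.Agent.K3h48.TC
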