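import Pool.Agent.K3h48.TC.Ex2

/-!
# An example for every exponent at least three: points over the completions
-/

set_option autoImplicit false
set_option linter.unusedSectionVars false

namespace Pool.Agent.K3h48.TC

open Polynomial Pool.Agent.R925.FD

lemma exists_primes (n : ℕ) : ∃ p q : ℕ, p.Prime ∧ q.Prime ∧ p % 8 = 1 ∧ q % (8 * p) = 1 ∧
    n < p ∧ p < q := by
  obtain ⟨p, hp1, hp2, hp3⟩ := Nat.forall_exists_prime_gt_and_modEq n (q := 8) (a := 1)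
    (by norm_num) (by norm_num)
  obtain ⟨q, hq1, hq2, hq3⟩ := Nat.forall_exists_prime_gt_and_modEq p (q := 8 * p) (a := 1)
    (by have := hp2.pos; omega) (Nat.coprime_one_left _)
  refine ⟨p, q, hp2, hq2, hp3, ?_, hp1, hq1⟩
  have h1 : q % (8 * p) = 1 % (8 * p) := hq3
  rw [h1, Nat.mod_eq_of_lt]
  have := hp2.pos
  omega

lemma exists_sqrt {p q : ℕ} (hp : p.Prime) (hq : q.Prime) (hp8 : p % 8 = 1)
    (hqp : q % (8 * p) = 1) (hpq : p < q) (r : ℕ) [hr : Fact r.Prime] :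
    ∃ β : ℚ_[r], β ^ 2 = ((p : ℤ) : ℚ_[r]) ∨ β ^ 2 = ((q : ℤ) : ℚ_[r]) ∨
      β ^ 2 = ((p : ℤ) : ℚ_[r]) * ((q : ℤ) : ℚ_[r]) := by
  have hpF : Fact p.Prime := ⟨hp⟩
  have hqF : Fact q.Prime := ⟨hq⟩
  by_cases h2 : r = 2
  · subst h2
    obtain ⟨β, hβ⟩ := Pool.Agent.W975.BMX.two1 1 p (by norm_num) (by omega)
    refine ⟨β, Or.inl ?_⟩
    rw [sq, ← hβ]
    simp
  have hodd := Pool.Agent.W335.BMX.odd1 r h2
  have hn1 : ¬ (r : ℤ) ∣ 1 := fun h => by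
    have h3 := Int.le_of_dvd one_pos h
    have h4 := hr.out.two_le
    omega
  have hl1 : legendreSym r 1 = 1 := legendreSym.at_one r
  have hqm : q % p = 1 := by
    have h3 : q % (8 * p) % p = 1 % p := by rw [hqp]
    rw [Nat.mod_mod_of_dvd _ (dvd_mul_left p 8), Nat.mod_eq_of_lt hp.one_lt] at h3
    exact h3
  have hq8 : q % 8 = 1 := by
    have h3 : q % (8 * p) % 8 = 1 % 8 := by rw [hqp]
    rw [Nat.mod_mod_of_dvd _ (dvd_mul_right 8 p)] at h3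
    exact h3
  have hpq' : p ≠ q := hpq.ne
  have hnp : ∀ {r' t : ℕ}, r'.Prime → t.Prime → r' ≠ t → ¬ (r' : ℤ) ∣ (t : ℤ) := by
    intro r' t h1 h3 h4 h5
    exact h4 ((Nat.prime_dvd_prime_iff_eq h1 h3).1 (by exact_mod_cast h5))
  have hpq1 : legendreSym p (q : ℤ) = 1 := by
    have h3 : legendreSym p (q : ℤ) = legendreSym p ((q : ℤ) % p) := legendreSym.mod p q
    have h4 : ((q : ℤ) % p) = 1 := by exact_mod_cast hqm
    rw [h3, h4, legendreSym.at_one]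
  have hqp1 : legendreSym q (p : ℤ) = 1 := by
    rw [← hpq1]
    exact legendreSym.quadratic_reciprocity_one_mod_four (by omega) (by rintro rfl; norm_num at hq8)
  by_cases hrp : r = p
  · subst hrp
    obtain ⟨β, hβ⟩ := hodd 1 q hn1 (hnp hr.out hq hpq') (by rw [hl1, hpq1])
    refine ⟨β, Or.inr (Or.inl ?_)⟩
    rw [sq, ← hβ]
    simp
  by_cases hrq : r = q
  · subst hrq
    obtain ⟨β, hβ⟩ := hodd 1 p hn1 (hnp hr.out hp hpq'.symm) (by rw [hl1, hqp1])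
    refine ⟨β, Or.inl ?_⟩
    rw [sq, ← hβ]
    simp
  have hdp := hnp hr.out hp hrp
  have hdq := hnp hr.out hq hrq
  have h0p : (((p : ℤ)) : ZMod r) ≠ 0 := fun h => hdp ((ZMod.intCast_zmod_eq_zero_iff_dvd _ r).1 h)
  have h0q : (((q : ℤ)) : ZMod r) ≠ 0 := fun h => hdq ((ZMod.intCast_zmod_eq_zero_iff_dvd _ r).1 h)
  rcases legendreSym.eq_one_or_neg_one r h0p with h3 | h3
  · obtain ⟨β, hβ⟩ := hodd 1 p hn1 hdp (by rw [hl1, h3])
    refine ⟨β, Or.inl ?_⟩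
    rw [sq, ← hβ]
    simp
  · rcases legendreSym.eq_one_or_neg_one r h0q with h4 | h4
    · obtain ⟨β, hβ⟩ := hodd 1 q hn1 hdq (by rw [hl1, h4])
      refine ⟨β, Or.inr (Or.inl ?_)⟩
      rw [sq, ← hβ]
      simp
    · obtain ⟨β, hβ⟩ := hodd p q hdp hdq (by rw [h3, h4])
      refine ⟨β, Or.inr (Or.inr ?_)⟩
      rw [sq, ← hβ, Int.cast_mul]

/-- **The example.** -/
theorem example_all {n : ℕ} (hn : 3 ≤ n) : ∃ (g : Fin 2 → ℤ[X]) (h : ℤ[X]), h.natDegree = 6 ∧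
    (∀ k, g k ≠ 0) ∧ h ≠ 0 ∧ (∀ k, n ∣ (g k).natDegree) ∧
    (∀ k l, k ≠ l →
      IsCoprime ((g k).map (Int.castRingHom ℚ)) ((g l).map (Int.castRingHom ℚ))) ∧
    (∀ k, IsCoprime (h.map (Int.castRingHom ℚ)) ((g k).map (Int.castRingHom ℚ))) ∧
    (∀ δ, IsClass n 1 δ → ¬ Persistent n g h δ) ∧
    ∀ (a : ℤ) (m : ℕ), m ≠ 0 → Nonempty (APt n m 1 a g h) := by
  obtain ⟨p, q, hp, hq, hp8, hqp, hnp, hpq⟩ := exists_primes n
  have hn0 : 0 < n := by omega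
  have hq8 : q % 8 = 1 := by
    have h3 : q % (8 * p) % 8 = 1 % 8 := by rw [hqp]
    rw [Nat.mod_mod_of_dvd _ (dvd_mul_right 8 p)] at h3
    exact h3
  have hr : xr p q ≠ 0 := by
    unfold xr
    refine mul_ne_zero ?_ ?_
    · omega
    · have h1 := hp.two_le
      have h2 := hq.pos
      have h3 : (q : ℤ) - p * q = - ((p - 1) * q) := by ring
      rw [h3, neg_ne_zero]
      refine mul_ne_zero ?_ ?_ <;> omega
  refine ⟨xg n p q, xh p q, xh_deg _ _, xg_ne hn _ _, (xh_monic _ _).ne_zero, xg_deg hn _ _,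
    xg_coprime hn hr, xgh_coprime hn hr, fun δ hδ => ?_, fun a m hm => ?_⟩
  · refine ex_not_pers hn hp hq (by omega) (by omega) hpq.ne ?_ ?_ hr δ (hδ.1 0)
    · intro h
      have := Nat.le_of_dvd hn0 h
      omega
    · intro h
      have := Nat.le_of_dvd hn0 h
      omega
  · obtain ⟨x⟩ := ex_pt (p := (p : ℤ)) (q := (q : ℤ)) hn0 hm a (L := ℝ)
      ⟨Real.sqrt p, Or.inl (by rw [Real.sq_sqrt (Nat.cast_nonneg p)]; simp)⟩
    exact ⟨⟨x, fun r => (ex_pt hn0 hm a (exists_sqrt hp hq hp8 hqp hpq (r : ℕ))).some⟩⟩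

end Pool.Agent.K3h48.TC
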