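import Pool.Agent.K3h48.TC.Sym

/-!
# Characters detect n-th powers of p-adic numbers
-/

set_option autoImplicit false
set_option linter.unusedSectionVars false

namespace Pool.Agent.K3h48.TC

open Polynomial

/-- An element of a finite commutative group on which all characters of order dividing `n` vanish is
an `n`-th power. -/
lemma exists_pow_of_chars {G : Type} [CommGroup G] [Finite G] (n : ℕ) (u : G)
    (h : ∀ φ : G →* ℂˣ, (∀ g, φ g ^ n = 1) → φ u = 1) : ∃ w : G, w ^ n = u := by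
  by_contra hcon
  have hu : u ∉ (powMonoidHom n : G →* G).range := by
    rintro ⟨w, hw⟩
    exact hcon ⟨w, hw⟩
  have hne : (QuotientGroup.mk' (powMonoidHom n : G →* G).range u) ≠ 1 := by
    intro h1
    exact hu ((QuotientGroup.eq_one_iff u).1 h1)
  obtain ⟨φ, hφ⟩ := CommGroup.exists_apply_ne_one_of_hasEnoughRootsOfUnity
    (G ⧸ (powMonoidHom n : G →* G).range) ℂ hne
  apply hφ
  refine h (φ.comp (QuotientGroup.mk' _)) ?_
  intro g
  rw [MonoidHom.comp_apply, ← map_pow, ← map_pow]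
  have h1 : (QuotientGroup.mk' (powMonoidHom n : G →* G).range) (g ^ n) = 1 :=
    (QuotientGroup.eq_one_iff _).2 ⟨g, rfl⟩
  rw [h1, map_one]

/-- A unit which is an `n`-th power modulo `q ^ e`, `e` large, is an `n`-th power. -/
lemma hensel_pow {q : ℕ} [hq : Fact q.Prime] {n : ℕ} (hn : 0 < n) (u : ℤ_[q]) (e : ℕ)
    (he : (q : ℝ) ^ (-(e : ℤ)) < ‖(n : ℤ_[q])‖ ^ 2) (w : ZMod (q ^ e)) (hw : IsUnit w)
    (h : w ^ n = PadicInt.toZModPow e u) : ∃ y : ℤ_[q], y ^ n = u := by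
  have hne : NeZero (q ^ e) := ⟨pow_ne_zero _ hq.out.ne_zero⟩
  have he0 : e ≠ 0 := by
    rintro rfl
    rw [Nat.cast_zero, neg_zero, zpow_zero] at he
    have h1 : ‖(n : ℤ_[q])‖ ^ 2 ≤ 1 := pow_le_one₀ (norm_nonneg _) (PadicInt.norm_le_one _)
    exact absurd he (not_lt.2 h1)
  set a : ℤ_[q] := (w.val : ℤ_[q]) with ha
  have ha1 : PadicInt.toZModPow e a = w := by
    rw [ha, map_natCast, ZMod.natCast_zmod_val]
  have han : ‖a‖ = 1 := by
    rw [ha, PadicInt.norm_natCast_eq_one_iff]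
    have h1 : IsUnit ((w.val : ℕ) : ZMod (q ^ e)) := by rwa [ZMod.natCast_zmod_val]
    rw [ZMod.isUnit_iff_coprime] at h1
    exact (Nat.Coprime.coprime_dvd_right (dvd_pow_self q he0) h1).symm
  have hF : aeval a (X ^ n - C u) = a ^ n - u := by
    rw [map_sub, map_pow, aeval_X, aeval_C]
    rfl
  have hF' : aeval a (derivative (X ^ n - C u)) = n * a ^ (n - 1) := by
    rw [derivative_sub, derivative_X_pow, derivative_C, sub_zero, map_mul, map_pow, aeval_X,
      aeval_C]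
    simp
  have hnorm : ‖aeval a (X ^ n - C u)‖ < ‖aeval a (derivative (X ^ n - C u))‖ ^ 2 := by
    rw [hF, hF', norm_mul, norm_pow a, han, one_pow, mul_one]
    refine lt_of_le_of_lt ?_ he
    rw [PadicInt.norm_le_pow_iff_mem_span_pow, ← PadicInt.ker_toZModPow, RingHom.mem_ker, map_sub,
      map_pow, ha1, h, sub_self]
  obtain ⟨z, hz, -⟩ := hensels_lemma hnorm
  refine ⟨z, ?_⟩
  rw [map_sub, map_pow, aeval_X, aeval_C] at hz
  exact sub_eq_zero.1 hz

/-- **Local lemma.** -/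
theorem npow_of_chars {q : ℕ} [hq : Fact q.Prime] {n : ℕ} (hn : 0 < n) {x : ℚ_[q]} (hx : x ≠ 0)
    (hval : (n : ℤ) ∣ x.valuation)
    (h : ∀ (e : ℕ) (χ : DirichletCharacter ℂ (q ^ e)), χ ^ n = 1 → symb χ x = 1) :
    ∃ y : ℚ_[q], x = y ^ n := by
  have hn0 : ‖(n : ℤ_[q])‖ ^ 2 > 0 := by
    have : (n : ℤ_[q]) ≠ 0 := Nat.cast_ne_zero.2 hn.ne'
    positivity
  obtain ⟨e, he⟩ := PadicInt.exists_pow_neg_lt q hn0
  have hne : NeZero (q ^ e) := ⟨pow_ne_zero _ hq.out.ne_zero⟩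
  obtain ⟨U, hU⟩ := ang_mod_unit (e := e) hx
  obtain ⟨w, hw⟩ := exists_pow_of_chars n U (by
    intro φ hφ
    have h1 := h e (MulChar.ofUnitHom φ) (by
      ext a
      rw [MulChar.pow_apply_coe, MulChar.ofUnitHom_coe, MulChar.one_apply_coe]
      have := congrArg Units.val (hφ a)
      rwa [Units.val_pow_eq_pow_val, Units.val_one] at this)
    rw [symb_self, ← hU, inv_eq_one, MulChar.ofUnitHom_coe] at h1
    exact Units.ext h1)
  obtain ⟨y, hy⟩ := hensel_pow hn (ang x) e he (w : ZMod (q ^ e)) w.isUnit (by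
    rw [← hU, ← hw, Units.val_pow_eq_pow_val])
  obtain ⟨k, hk⟩ := hval
  refine ⟨(y : ℚ_[q]) * (q : ℚ_[q]) ^ k, ?_⟩
  rw [mul_pow, ← zpow_natCast, ← zpow_natCast (_ ^ k), ← zpow_mul, mul_comm k, ← hk]
  conv_lhs => rw [ang_spec hx, ← hy]
  rw [PadicInt.coe_pow, zpow_natCast]

lemma val_neg {r : ℕ} [hr : Fact r.Prime] (x : ℚ_[r]) : (-x).valuation = x.valuation := by
  by_cases hx : x = 0
  · rw [hx, neg_zero]
  · have h1 : ((-1 : ℚ_[r])).valuation = 0 := by
      have h2 := Padic.valuation_mul (p := r) (x := -1) (y := -1) (neg_ne_zero.2 one_ne_zero)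
        (neg_ne_zero.2 one_ne_zero)
      rw [neg_mul_neg, one_mul, Padic.valuation_one] at h2
      omega
    rw [← neg_one_mul, Padic.valuation_mul (neg_ne_zero.2 one_ne_zero) hx, h1, zero_add]

/-- A rational number which makes all valuations divisible by `n`. -/
theorem exists_adjust {n : ℕ} (hn : 0 < n) (v : ∀ r : Nat.Primes, ℚ_[(r : ℕ)]) (hv : ∀ r, v r ≠ 0)
    (hf : {r : Nat.Primes | ¬ (n : ℤ) ∣ (v r).valuation}.Finite) (w : ℝ) (hw : w ≠ 0) :
    ∃ c : ℚ, c ≠ 0 ∧ 0 < w * (c : ℝ) ∧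
      ∀ r : Nat.Primes, (n : ℤ) ∣ (v r * ((c : ℚ) : ℚ_[(r : ℕ)])).valuation := by
  classical
  set S := hf.toFinset with hS
  set d : ℚ := ∏ r ∈ S, ((r : ℕ) : ℚ) ^ (-(v r).valuation) with hd
  have hd0 : 0 < d := Finset.prod_pos fun r _ => zpow_pos (Nat.cast_pos.2 r.2.pos) _
  have hval : ∀ r : Nat.Primes, ((d : ℚ) : ℚ_[(r : ℕ)]).valuation =
      if r ∈ S then - (v r).valuation else 0 := by
    intro r
    have hne : ∀ t : Nat.Primes, ((t : ℕ) : ℚ_[(r : ℕ)]) ≠ 0 := fun t =>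
      Nat.cast_ne_zero.2 t.2.ne_zero
    have hgen : ∀ T : Finset Nat.Primes,
        (((∏ t ∈ T, ((t : ℕ) : ℚ) ^ (-(v t).valuation) : ℚ) : ℚ) : ℚ_[(r : ℕ)]).valuation =
        if r ∈ T then - (v r).valuation else 0 := by
      intro T
      induction T using Finset.induction_on with
      | empty => simp
      | insert t T ht ih =>
        rw [Finset.prod_insert ht, Rat.cast_mul, Padic.valuation_mul _ _, ih, Rat.cast_zpow,
          Rat.cast_natCast, Padic.valuation_zpow]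
        · by_cases h : r = t
          · subst h
            rw [if_neg ht, if_pos (Finset.mem_insert_self r T), Padic.valuation_p]
            ring
          · have h' : (r : ℕ) ≠ (t : ℕ) := fun h1 => h (Subtype.ext h1)
            rw [val_other t.2 h', mul_zero, zero_add]
            by_cases h2 : r ∈ T
            · rw [if_pos h2, if_pos (Finset.mem_insert_of_mem h2)]
            · rw [if_neg h2, if_neg]
              intro h3
              rcases Finset.mem_insert.1 h3 with h4 | h4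
              · exact h h4
              · exact h2 h4
        · rw [Rat.cast_zpow, Rat.cast_natCast]
          exact zpow_ne_zero _ (hne t)
        · rw [Rat.cast_prod]
          refine Finset.prod_ne_zero_iff.2 fun t' _ => ?_
          rw [Rat.cast_zpow, Rat.cast_natCast]
          exact zpow_ne_zero _ (hne t')
    exact hgen S
  have hdvd : ∀ r : Nat.Primes, (n : ℤ) ∣ (v r * ((d : ℚ) : ℚ_[(r : ℕ)])).valuation := by
    intro r
    rw [Padic.valuation_mul (hv r) (Rat.cast_ne_zero.2 hd0.ne'), hval r]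
    by_cases h : r ∈ S
    · rw [if_pos h, add_neg_cancel]
      exact dvd_zero _
    · rw [if_neg h, add_zero]
      by_contra h1
      exact h (hf.mem_toFinset.2 h1)
  rcases lt_or_gt_of_ne hw with h | h
  · refine ⟨-d, neg_ne_zero.2 hd0.ne', ?_, fun r => ?_⟩
    · rw [Rat.cast_neg, mul_neg, neg_pos]
      exact mul_neg_of_neg_of_pos h (Rat.cast_pos.2 hd0)
    · rw [Rat.cast_neg, mul_neg, val_neg]
      exact hdvd r
  · exact ⟨d, hd0.ne', mul_pos h (Rat.cast_pos.2 hd0), hdvd⟩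

/-- The product of the symbols of a family is multiplicative in rational numbers. -/
lemma orth_mul {n : ℕ} {q e : ℕ} [hq : Fact q.Prime] (χ : DirichletCharacter ℂ (q ^ e))
    (hχ : χ ^ n = 1) (v : ∀ r : Nat.Primes, ℚ_[(r : ℕ)]) (hv : ∀ r, v r ≠ 0)
    (hf : {r : Nat.Primes | ¬ (n : ℤ) ∣ (v r).valuation}.Finite) {w : ℝ} (hw : w ≠ 0)
    {c : ℚ} (hc : c ≠ 0) (h : symbR χ w * ∏ᶠ r : Nat.Primes, symb χ (v r) = 1) :
    symbR χ (w * (c : ℝ)) * ∏ᶠ r : Nat.Primes, symb χ (v r * ((c : ℚ) : ℚ_[(r : ℕ)])) = 1 := by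
  have h1 : (fun r : Nat.Primes => symb χ (v r * ((c : ℚ) : ℚ_[(r : ℕ)]))) =
      fun r : Nat.Primes => symb χ (v r) * symb χ ((c : ℚ) : ℚ_[(r : ℕ)]) := by
    funext r
    rw [symb_mul χ (hv r) (Rat.cast_ne_zero.2 hc)]
  rw [h1, finprod_mul_distrib (fin_of_val χ hχ v hf) (symb_fin χ hc),
    symbR_mul χ hw (Rat.cast_ne_zero.2 hc)]
  have h2 := product_formula χ hc
  unfold tot at h2
  calc symbR χ w * symbR χ (c : ℝ) * ((∏ᶠ r : Nat.Primes, symb χ (v r)) *
        ∏ᶠ r : Nat.Primes, symb χ ((c : ℚ) : ℚ_[(r : ℕ)]))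
      = (symbR χ w * ∏ᶠ r : Nat.Primes, symb χ (v r)) *
        (symbR χ (c : ℝ) * ∏ᶠ r : Nat.Primes, symb χ ((c : ℚ) : ℚ_[(r : ℕ)])) := by ring
    _ = 1 := by rw [h, h2, mul_one]

/-- **A family orthogonal to all characters of prime power modulus and order dividing `n` is a
rational number up to `n`-th powers.** -/
theorem exists_rat_of_orth {n : ℕ} (hn : 0 < n) (v : ∀ r : Nat.Primes, ℚ_[(r : ℕ)])
    (hv : ∀ r, v r ≠ 0) (hf : {r : Nat.Primes | ¬ (n : ℤ) ∣ (v r).valuation}.Finite)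
    {w : ℝ} (hw : w ≠ 0)
    (h : ∀ (q : Nat.Primes) (e : ℕ) (χ : DirichletCharacter ℂ ((q : ℕ) ^ e)), χ ^ n = 1 →
      symbR χ w * ∏ᶠ r : Nat.Primes, symb χ (v r) = 1) :
    ∃ c : ℚ, c ≠ 0 ∧ (∃ y : ℝ, w = c * y ^ n) ∧
      ∀ r : Nat.Primes, ∃ y : ℚ_[(r : ℕ)], v r = ((c : ℚ) : ℚ_[(r : ℕ)]) * y ^ n := by
  obtain ⟨c, hc, hpos, hdvd⟩ := exists_adjust hn v hv hf w hw
  refine ⟨c⁻¹, inv_ne_zero hc, ?_, fun q => ?_⟩
  · refine ⟨(w * c) ^ ((n : ℝ)⁻¹), ?_⟩
    rw [Real.rpow_inv_natCast_pow hpos.le hn.ne', Rat.cast_inv]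
    have : (c : ℝ) ≠ 0 := Rat.cast_ne_zero.2 hc
    field_simp
  · have hcq : ((c : ℚ) : ℚ_[(q : ℕ)]) ≠ 0 := Rat.cast_ne_zero.2 hc
    obtain ⟨y, hy⟩ := npow_of_chars hn (mul_ne_zero (hv q) hcq) (hdvd q) (by
      intro e χ hχ
      have h1 := orth_mul χ hχ v hv hf hw hc (h q e χ hχ)
      rw [symbR, if_neg (not_lt.2 hpos.le), one_mul, finprod_eq_single _ q] at h1
      · exact h1
      · intro r hr
        have hr' : (r : ℕ) ≠ (q : ℕ) := fun h => hr (Subtype.ext h)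
        rw [symb_ne χ hr']
        obtain ⟨k, hk⟩ := hdvd r
        obtain ⟨u, hu⟩ := unit_mod (e := e) hr'
        rw [hk, zpow_mul, zpow_natCast, ← hu, ← MulChar.pow_apply_coe, hχ, MulChar.one_apply_coe,
          one_zpow])
    refine ⟨y, ?_⟩
    rw [← hy, Rat.cast_inv]
    field_simp

end Pool.Agent.K3h48.TC
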