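import Mathlib
import Pool.Agent.W313.BMX.Stm

/-!
# Local symbols of Dirichlet characters of prime power modulus, and the product formula
-/

set_option autoImplicit false
set_option linter.unusedSectionVars false

namespace Pool.Agent.K3h48.TC

section ang

variable {r : ℕ} [hr : Fact r.Prime]

/-- the unit `v r ^ (-k)`, where `k` is the valuation of `v` -/
noncomputable def ang (v : ℚ_[r]) : ℤ_[r] :=
  if h : ‖v * (r : ℚ_[r]) ^ (-v.valuation)‖ ≤ 1 then ⟨_, h⟩ else 0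

lemma r_norm (v : ℤ) : ‖(r : ℚ_[r]) ^ (-v)‖ = (r : ℝ) ^ v := by
  rw [norm_zpow, Padic.norm_p, _root_.inv_zpow, _root_.zpow_neg, inv_inv]

lemma norm_unit {c : ℚ_[r]} (hc : c ≠ 0) : ‖c * (r : ℚ_[r]) ^ (-c.valuation)‖ = 1 := by
  rw [norm_mul, r_norm, Padic.norm_eq_zpow_neg_valuation hc, ← zpow_add₀, neg_add_cancel, zpow_zero]
  exact Nat.cast_ne_zero.2 hr.out.ne_zero

lemma ang_eq {c : ℚ_[r]} (hc : c ≠ 0) :
    ang c = ⟨c * (r : ℚ_[r]) ^ (-c.valuation), (norm_unit hc).le⟩ := by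
  unfold ang
  exact dif_pos (norm_unit hc).le

lemma ang_coe {c : ℚ_[r]} (hc : c ≠ 0) :
    ((ang c : ℤ_[r]) : ℚ_[r]) = c * (r : ℚ_[r]) ^ (-c.valuation) := by
  rw [ang_eq hc]

lemma ang_norm {c : ℚ_[r]} (hc : c ≠ 0) : ‖ang c‖ = 1 := by
  rw [PadicInt.norm_def, ang_coe hc, norm_unit hc]

lemma ang_unit {c : ℚ_[r]} (hc : c ≠ 0) : IsUnit (ang c) := by
  rw [PadicInt.isUnit_iff, ang_norm hc]

lemma ang_spec {c : ℚ_[r]} (hc : c ≠ 0) :
    c = ((ang c : ℤ_[r]) : ℚ_[r]) * (r : ℚ_[r]) ^ c.valuation := by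
  rw [ang_coe hc, mul_assoc, ← zpow_add₀ (Nat.cast_ne_zero.2 hr.out.ne_zero), neg_add_cancel,
    zpow_zero, mul_one]

lemma ang_mul {c c' : ℚ_[r]} (hc : c ≠ 0) (hc' : c' ≠ 0) : ang (c * c') = ang c * ang c' := by
  apply Subtype.coe_injective
  change ((ang (c * c') : ℤ_[r]) : ℚ_[r]) = ((ang c * ang c' : ℤ_[r]) : ℚ_[r])
  rw [PadicInt.coe_mul, ang_coe hc, ang_coe hc', ang_coe (mul_ne_zero hc hc'),
    Padic.valuation_mul hc hc', neg_add, zpow_add₀ (Nat.cast_ne_zero.2 hr.out.ne_zero)]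
  ring

lemma ang_of_unit {u : ℤ_[r]} (hu : ‖u‖ = 1) : ang (u : ℚ_[r]) = u := by
  have h0 : (u : ℚ_[r]) ≠ 0 := by
    intro h
    rw [PadicInt.norm_def, h] at hu
    simp at hu
  have hv : (u : ℚ_[r]).valuation = 0 := by
    have h1 := Padic.norm_eq_zpow_neg_valuation h0
    rw [PadicInt.norm_def] at hu
    rw [hu] at h1
    have h2 : (1 : ℝ) < r := by exact_mod_cast hr.out.one_lt
    have h3 : (r : ℝ) ^ (0 : ℤ) = (r : ℝ) ^ (-(u : ℚ_[r]).valuation) := by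
      rw [zpow_zero]; exact h1
    have h4 := zpow_right_injective₀ (by positivity) h2.ne' h3
    omega
  apply Subtype.coe_injective
  change ((ang (u : ℚ_[r]) : ℤ_[r]) : ℚ_[r]) = u
  rw [ang_coe h0, hv, neg_zero, zpow_zero, mul_one]

lemma ang_one : ang (1 : ℚ_[r]) = 1 := by
  have h := ang_of_unit (r := r) (u := 1) norm_one
  exact_mod_cast h

lemma ang_neg_one : ang (-1 : ℚ_[r]) = -1 := by
  have h := ang_of_unit (r := r) (u := -1) (by rw [norm_neg, norm_one])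
  exact_mod_cast h

lemma ang_self : ang (r : ℚ_[r]) = 1 := by
  have h0 : (r : ℚ_[r]) ≠ 0 := Nat.cast_ne_zero.2 hr.out.ne_zero
  apply Subtype.coe_injective
  change ((ang (r : ℚ_[r]) : ℤ_[r]) : ℚ_[r]) = ((1 : ℤ_[r]) : ℚ_[r])
  rw [ang_coe h0, Padic.valuation_p, _root_.zpow_neg_one, mul_inv_cancel₀ h0, PadicInt.coe_one]

lemma ang_nat {n : ℕ} (hn : ¬ r ∣ n) : ang (n : ℚ_[r]) = n := by
  have h1 : ‖((n : ℤ_[r]))‖ = 1 := by
    rw [PadicInt.norm_natCast_eq_one_iff]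
    exact (hr.out.coprime_iff_not_dvd.2 hn)
  have h := ang_of_unit h1
  exact_mod_cast h

end ang

section symb

/-- the residue class modulo `r ^ e` of the unit part of `v` (as a natural number) -/
noncomputable def ures (e : ℕ) {r : ℕ} [Fact r.Prime] (v : ℚ_[r]) : ℕ :=
  (PadicInt.toZModPow e (ang v)).val

lemma ures_cast (e : ℕ) {r : ℕ} [hr : Fact r.Prime] (v : ℚ_[r]) :
    ((ures e v : ℕ) : ZMod (r ^ e)) = PadicInt.toZModPow e (ang v) := by
  have : NeZero (r ^ e) := ⟨pow_ne_zero _ hr.out.ne_zero⟩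
  rw [ures, ZMod.natCast_zmod_val]

/-- The local symbol at the prime `r` of `v` and the Dirichlet character `χ` modulo `q ^ e`: `χ r` to
the power the valuation of `v`, if `r ≠ q`, and the inverse of the value of `χ` at the unit part of
`v`, if `r = q`. -/
noncomputable def symb {q e : ℕ} (χ : DirichletCharacter ℂ (q ^ e)) {r : ℕ} [Fact r.Prime]
    (v : ℚ_[r]) : ℂ :=
  if r = q then (χ ((ures e v : ℕ) : ZMod (q ^ e)))⁻¹ else χ (r : ZMod (q ^ e)) ^ v.valuation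

/-- The local symbol at the real place. -/
noncomputable def symbR {N : ℕ} (χ : DirichletCharacter ℂ N) (v : ℝ) : ℂ :=
  if v < 0 then χ (-1) else 1

variable {q e : ℕ} [hq : Fact q.Prime] (χ : DirichletCharacter ℂ (q ^ e))

lemma symb_self (v : ℚ_[q]) : symb χ v = (χ (PadicInt.toZModPow e (ang v)))⁻¹ := by
  rw [symb, if_pos rfl, ures_cast]

lemma symb_ne {r : ℕ} [Fact r.Prime] (h : r ≠ q) (v : ℚ_[r]) :
    symb χ v = χ (r : ZMod (q ^ e)) ^ v.valuation := by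
  rw [symb, if_neg h]

lemma unit_mod {r : ℕ} [hr : Fact r.Prime] (h : r ≠ q) : IsUnit (r : ZMod (q ^ e)) := by
  rw [ZMod.isUnit_iff_coprime]
  exact Nat.Coprime.pow_right e ((Nat.coprime_primes hr.out hq.out).2 h)

lemma chi_ne {x : ZMod (q ^ e)} (h : IsUnit x) : χ x ≠ 0 := by
  exact (h.map χ).ne_zero

lemma ang_mod_unit {v : ℚ_[q]} (hv : v ≠ 0) : IsUnit (PadicInt.toZModPow e (ang v)) :=
  (ang_unit hv).map (PadicInt.toZModPow (p := q) e)

lemma symb_ne_zero {r : ℕ} [hr : Fact r.Prime] {v : ℚ_[r]} (hv : v ≠ 0) : symb χ v ≠ 0 := by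
  by_cases h : r = q
  · subst h
    rw [symb_self]
    exact inv_ne_zero (chi_ne χ (ang_mod_unit hv))
  · rw [symb_ne χ h]
    exact zpow_ne_zero _ (chi_ne χ (unit_mod h))

lemma symb_mul {r : ℕ} [hr : Fact r.Prime] {v w : ℚ_[r]} (hv : v ≠ 0) (hw : w ≠ 0) :
    symb χ (v * w) = symb χ v * symb χ w := by
  by_cases h : r = q
  · subst h
    rw [symb_self, symb_self, symb_self, ang_mul hv hw, map_mul, map_mul, mul_inv]
  · rw [symb_ne χ h, symb_ne χ h, symb_ne χ h, Padic.valuation_mul hv hw,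
      zpow_add₀ (chi_ne χ (unit_mod h))]

lemma symb_one {r : ℕ} [hr : Fact r.Prime] : symb χ (1 : ℚ_[r]) = 1 := by
  have h := symb_mul χ (v := (1 : ℚ_[r])) (w := 1) one_ne_zero one_ne_zero
  rw [mul_one] at h
  exact (mul_eq_left₀ (symb_ne_zero χ one_ne_zero)).1 h.symm

lemma symbR_mul {v w : ℝ} (hv : v ≠ 0) (hw : w ≠ 0) :
    symbR χ (v * w) = symbR χ v * symbR χ w := by
  have hsq : χ (-1) * χ (-1) = 1 := by
    rw [← map_mul, neg_mul_neg, one_mul, map_one]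
  rcases lt_or_gt_of_ne hv with h1 | h1 <;> rcases lt_or_gt_of_ne hw with h2 | h2
  · rw [symbR, symbR, symbR, if_neg (not_lt.2 (mul_pos_of_neg_of_neg h1 h2).le), if_pos h1,
      if_pos h2, hsq]
  · rw [symbR, symbR, symbR, if_pos (mul_neg_of_neg_of_pos h1 h2), if_pos h1,
      if_neg (not_lt.2 h2.le), mul_one]
  · rw [symbR, symbR, symbR, if_pos (mul_neg_of_pos_of_neg h1 h2), if_neg (not_lt.2 h1.le),
      if_pos h2, one_mul]
  · rw [symbR, symbR, symbR, if_neg (not_lt.2 (mul_pos h1 h2).le), if_neg (not_lt.2 h1.le),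
      if_neg (not_lt.2 h2.le), one_mul]

/-- a family of units at almost all places has only finitely many nontrivial symbols -/
lemma fin_of_val {n : ℕ} (hχ : χ ^ n = 1) (v : ∀ r : Nat.Primes, ℚ_[(r : ℕ)])
    (hf : {r : Nat.Primes | ¬ (n : ℤ) ∣ (v r).valuation}.Finite) :
    {r : Nat.Primes | symb χ (v r) ≠ 1}.Finite := by
  refine (hf.union (Set.finite_singleton (⟨q, hq.out⟩ : Nat.Primes))).subset ?_
  intro r hr
  by_contra hcon
  have h1' : (n : ℤ) ∣ (v r).valuation := by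
    by_contra h
    exact hcon (Or.inl h)
  have h2' : (r : ℕ) ≠ q := fun h => hcon (Or.inr (Subtype.ext h))
  apply hr
  rw [symb_ne χ h2']
  obtain ⟨k, hk⟩ := h1'
  have h3 : χ ((r : ℕ) : ZMod (q ^ e)) ^ n = 1 := by
    obtain ⟨u, hu⟩ := unit_mod (e := e) h2'
    rw [← hu, ← MulChar.pow_apply_coe, hχ, MulChar.one_apply_coe]
  rw [hk, zpow_mul, zpow_natCast, h3, one_zpow]

lemma val_fin {c : ℚ} (hc : c ≠ 0) :
    {r : Nat.Primes | ((c : ℚ) : ℚ_[(r : ℕ)]).valuation ≠ 0}.Finite := by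
  have h1 : {r : Nat.Primes | (r : ℕ) ≤ max c.num.natAbs c.den}.Finite := by
    have h2 : (Set.Iic (max c.num.natAbs c.den)).Finite := Set.finite_Iic _
    exact h2.preimage (Subtype.val_injective.injOn)
  refine h1.subset fun r hr => ?_
  by_contra h
  have h' : max c.num.natAbs c.den < (r : ℕ) := not_le.1 h
  apply hr
  have h3 : ¬ (r : ℕ) ∣ c.num.natAbs := fun h4 => by
    have := Nat.le_of_dvd (Int.natAbs_pos.2 (Rat.num_ne_zero.2 hc)) h4
    omega
  have h4 : ¬ (r : ℕ) ∣ c.den := fun h4 => by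
    have := Nat.le_of_dvd c.den_pos h4
    omega
  rw [Padic.valuation_ratCast, padicValRat_def, padicValInt.eq_zero_of_not_dvd
    (fun h => h3 (Int.natCast_dvd.1 h)), padicValNat.eq_zero_of_not_dvd h4]
  rfl

lemma symb_fin {c : ℚ} (hc : c ≠ 0) :
    (Function.mulSupport fun r : Nat.Primes => symb χ ((c : ℚ) : ℚ_[(r : ℕ)])).Finite := by
  refine fin_of_val χ (n := 0) (pow_zero _) (fun r => ((c : ℚ) : ℚ_[(r : ℕ)])) ?_
  refine (val_fin hc).subset fun r hr => ?_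
  intro h
  apply hr
  rw [h]
  exact dvd_zero _

/-- the product of all the symbols of a rational number -/
noncomputable def tot (c : ℚ) : ℂ :=
  symbR χ (c : ℝ) * ∏ᶠ r : Nat.Primes, symb χ ((c : ℚ) : ℚ_[(r : ℕ)])

lemma tot_mul {c d : ℚ} (hc : c ≠ 0) (hd : d ≠ 0) : tot χ (c * d) = tot χ c * tot χ d := by
  unfold tot
  have h1 : (fun r : Nat.Primes => symb χ (((c * d : ℚ) : ℚ) : ℚ_[(r : ℕ)])) =
      fun r : Nat.Primes => symb χ ((c : ℚ) : ℚ_[(r : ℕ)]) * symb χ ((d : ℚ) : ℚ_[(r : ℕ)]) := by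
    funext r
    rw [Rat.cast_mul, symb_mul χ (Rat.cast_ne_zero.2 hc) (Rat.cast_ne_zero.2 hd)]
  rw [h1, finprod_mul_distrib (symb_fin χ hc) (symb_fin χ hd), Rat.cast_mul,
    symbR_mul χ (Rat.cast_ne_zero.2 hc) (Rat.cast_ne_zero.2 hd)]
  ring

lemma tot_one : tot χ 1 = 1 := by
  unfold tot
  have h1 : (fun r : Nat.Primes => symb χ (((1 : ℚ) : ℚ) : ℚ_[(r : ℕ)])) = fun _ => 1 := by
    funext r
    rw [Rat.cast_one, symb_one]
  rw [h1, finprod_one, mul_one, symbR, if_neg]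
  rw [Rat.cast_one]
  norm_num

lemma ang_chi (v : ℚ_[q]) (x : ℤ) (h : ang v = x) :
    symb χ v = (χ (x : ZMod (q ^ e)))⁻¹ := by
  rw [symb_self, h, map_intCast]

lemma tot_neg_one : tot χ (-1) = 1 := by
  obtain ⟨Q, hQ⟩ : ∃ Q : Nat.Primes, (Q : ℕ) = q := ⟨⟨q, hq.out⟩, rfl⟩
  subst hQ
  unfold tot
  have h1 : ∀ r : Nat.Primes, r ≠ Q → symb χ (((-1 : ℚ) : ℚ) : ℚ_[(r : ℕ)]) = 1 := by
    intro r hr
    have h2 : (r : ℕ) ≠ (Q : ℕ) := fun h => hr (Subtype.ext h)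
    rw [symb_ne χ h2, Rat.cast_neg, Rat.cast_one]
    have h3 : (-1 : ℚ_[(r : ℕ)]).valuation = 0 := by
      have := Padic.valuation_intCast (p := (r : ℕ)) (-1)
      rw [Int.cast_neg, Int.cast_one] at this
      rw [this, padicValInt.eq_zero_of_not_dvd]
      · rfl
      · intro h
        have h4 : (r : ℕ) ∣ 1 := by
          have := Int.natCast_dvd.1 h
          simpa using this
        exact r.2.one_lt.ne' (Nat.dvd_one.1 h4)
    rw [h3, zpow_zero]
  rw [finprod_eq_single _ Q h1]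
  have h4 : symb χ (((-1 : ℚ) : ℚ) : ℚ_[(Q : ℕ)]) = (χ (-1))⁻¹ := by
    have h5 := ang_chi χ (-1 : ℚ_[(Q : ℕ)]) (-1) (by rw [ang_neg_one]; push_cast; rfl)
    rw [Int.cast_neg, Int.cast_one] at h5
    rw [← h5, Rat.cast_neg, Rat.cast_one]
  rw [h4, symbR, if_pos (by rw [Rat.cast_neg, Rat.cast_one]; norm_num), mul_inv_cancel₀]
  exact chi_ne χ isUnit_one.neg

lemma val_other {r t : ℕ} [hr : Fact r.Prime] (ht : t.Prime) (h : r ≠ t) :
    ((t : ℕ) : ℚ_[r]).valuation = 0 := by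
  rw [Padic.valuation_natCast, padicValNat.eq_zero_of_not_dvd]
  · rfl
  · intro h4
    exact h ((Nat.prime_dvd_prime_iff_eq hr.out ht).1 h4)

lemma tot_prime {t : ℕ} (ht : t.Prime) : tot χ (t : ℚ) = 1 := by
  classical
  obtain ⟨Q, hQ⟩ : ∃ Q : Nat.Primes, (Q : ℕ) = q := ⟨⟨q, hq.out⟩, rfl⟩
  subst hQ
  obtain ⟨T, hT⟩ : ∃ T : Nat.Primes, (T : ℕ) = t := ⟨⟨t, ht⟩, rfl⟩
  subst hT
  unfold tot
  have hR : symbR χ ((((T : ℕ) : ℚ) : ℚ) : ℝ) = 1 := by
    rw [symbR, if_neg]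
    rw [Rat.cast_natCast, not_lt]
    exact Nat.cast_nonneg _
  rw [hR, one_mul]
  by_cases htq : T = Q
  · subst htq
    have h1 : (fun r : Nat.Primes => symb χ ((((T : ℕ) : ℚ) : ℚ) : ℚ_[(r : ℕ)])) = fun _ => 1 := by
      funext r
      rw [Rat.cast_natCast]
      by_cases h2 : r = T
      · subst h2
        have h5 := ang_chi χ ((r : ℕ) : ℚ_[(r : ℕ)]) 1 (by rw [ang_self]; push_cast; rfl)
        rw [Int.cast_one, map_one, inv_one] at h5
        exact h5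
      · have h2' : (r : ℕ) ≠ (T : ℕ) := fun h => h2 (Subtype.ext h)
        rw [symb_ne χ h2', val_other ht h2', zpow_zero]
    rw [h1, finprod_one]
  · have htq' : (T : ℕ) ≠ (Q : ℕ) := fun h => htq (Subtype.ext h)
    have h1 : ∀ r : Nat.Primes, r ∉ ({T, Q} : Finset Nat.Primes) →
        symb χ ((((T : ℕ) : ℚ) : ℚ) : ℚ_[(r : ℕ)]) = 1 := by
      intro r hr
      rw [Finset.mem_insert, Finset.mem_singleton, not_or] at hr
      have h2 : (r : ℕ) ≠ (Q : ℕ) := fun h => hr.2 (Subtype.ext h)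
      have h2' : (r : ℕ) ≠ (T : ℕ) := fun h => hr.1 (Subtype.ext h)
      rw [symb_ne χ h2, Rat.cast_natCast, val_other ht h2', zpow_zero]
    have h2 : (Function.mulSupport fun r : Nat.Primes =>
        symb χ ((((T : ℕ) : ℚ) : ℚ) : ℚ_[(r : ℕ)])) ⊆ (({T, Q} : Finset Nat.Primes) : Set _) := by
      intro r hr
      by_contra h
      exact hr (h1 r h)
    rw [finprod_eq_prod_of_mulSupport_subset _ h2, Finset.prod_pair htq]
    have h3 : symb χ ((((T : ℕ) : ℚ) : ℚ) : ℚ_[(T : ℕ)]) = χ ((T : ℕ) : ZMod ((Q : ℕ) ^ e)) := by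
      rw [symb_ne χ htq', Rat.cast_natCast, Padic.valuation_p, zpow_one]
    have h4 : symb χ ((((T : ℕ) : ℚ) : ℚ) : ℚ_[(Q : ℕ)]) =
        (χ ((T : ℕ) : ZMod ((Q : ℕ) ^ e)))⁻¹ := by
      have h5 := ang_chi χ ((T : ℕ) : ℚ_[(Q : ℕ)]) ((T : ℕ) : ℤ) (by
        rw [ang_nat (fun h => htq' ((Nat.prime_dvd_prime_iff_eq hq.out ht).1 h).symm)]
        push_cast
        rfl)
      rw [Int.cast_natCast] at h5
      rw [← h5, Rat.cast_natCast]
    rw [h3, h4, mul_inv_cancel₀ (chi_ne χ (unit_mod htq'))]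

lemma tot_nat {n : ℕ} (hn : n ≠ 0) : tot χ (n : ℚ) = 1 := by
  induction n using Nat.recOnMul with
  | zero => exact absurd rfl hn
  | one => rw [Nat.cast_one, tot_one]
  | prime t ht => exact tot_prime χ ht
  | mul a b ha hb =>
    have ha0 : a ≠ 0 := fun h => hn (by rw [h, zero_mul])
    have hb0 : b ≠ 0 := fun h => hn (by rw [h, mul_zero])
    rw [Nat.cast_mul, tot_mul χ (Nat.cast_ne_zero.2 ha0) (Nat.cast_ne_zero.2 hb0), ha ha0, hb hb0,
      mul_one]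

/-- **The product formula.** -/
theorem product_formula {c : ℚ} (hc : c ≠ 0) : tot χ c = 1 := by
  have hnum : tot χ (c.num : ℚ) = 1 := by
    rcases Int.natAbs_eq c.num with h | h
    · rw [h, Int.cast_natCast]
      exact tot_nat χ (Int.natAbs_ne_zero.2 (Rat.num_ne_zero.2 hc))
    · rw [h, Int.cast_neg, Int.cast_natCast, ← neg_one_mul, tot_mul χ (by norm_num)
        (Nat.cast_ne_zero.2 (Int.natAbs_ne_zero.2 (Rat.num_ne_zero.2 hc))), tot_neg_one,
        tot_nat χ (Int.natAbs_ne_zero.2 (Rat.num_ne_zero.2 hc)), mul_one]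
  have hden : tot χ (c.den : ℚ) = 1 := tot_nat χ c.den_nz
  have h1 := tot_mul χ hc (Nat.cast_ne_zero.2 c.den_nz : (c.den : ℚ) ≠ 0)
  rw [Rat.mul_den_eq_num, hnum, hden, mul_one] at h1
  exact h1.symm

end symb

end Pool.Agent.K3h48.TC
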